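import Pool.Agent.helper1.VD.SpecA2

/-!
# Row vd:AWE2 (MP_07c750_an): the cut-off terms of the error of a Gaussian beam
-/

set_option autoImplicit false

open scoped ContDiff Topology InnerProductSpace ComplexConjugate ENNReal
open MeasureTheory Filter Set

namespace Pool.Agent.VD

open Pool.Agent.VQ (CH)

noncomputable section

variable {d : ℕ}

theorem AWE2_lin {E : Type} [NormedAddCommGroup E] [NormedSpace ℝ E] (L : V d →L[ℝ] E) (x : V d) :
    L x = ∑ i : Fin d, x i • L (EuclideanSpace.single i (1 : ℝ)) := by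
  have h : ∑ i : Fin d, x i • (EuclideanSpace.single i (1 : ℝ) : V d) = x := by
    ext j
    simp [Finset.sum_apply, Pi.single_apply]
  conv_lhs => rw [← h]
  rw [map_sum]
  refine Finset.sum_congr rfl fun i _ => ?_
  rw [map_smul]

/-- `x ↦ h^(ab)(q + v)` -/
def AWE2_h (G : V d → V d →L[ℝ] V d) (q : P d) (a b : Fin d) (v : V d) : ℂ := (((IG G (q.1 + v) (EuclideanSpace.single b 1)) a : ℝ) : ℂ)

def AWE2_X (ch : ℝ → ℝ) (ζ R : ℝ) (j : Fin d) (v : V d) : ℂ := fderiv ℝ (WX ch ζ R) v (EuclideanSpace.single j 1)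

def AWE2_XX (ch : ℝ → ℝ) (ζ R : ℝ) (i j : Fin d) (v : V d) : ℂ := fderiv ℝ (AWE2_X ch ζ R j) v (EuclideanSpace.single i 1)

def AWE2_Dh (G : V d → V d →L[ℝ] V d) (q : P d) (i a b : Fin d) (v : V d) : ℂ := fderiv ℝ (AWE2_h G q a b) v (EuclideanSpace.single i 1)

def AWE2_g (q : P d) (M : MC d) (b : Fin d) (v : V d) : ℂ := ((q.2 b : ℝ) : ℂ) + ∑ l, M b l * ((v l : ℝ) : ℂ)

/-- the entry of an operator -/
def AWE2_E (a b : Fin d) : (V d →L[ℝ] V d) →L[ℝ] ℂ :=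
  Complex.ofRealCLM.comp ((EuclideanSpace.proj a : V d →L[ℝ] ℝ).comp (ContinuousLinearMap.apply ℝ (V d) (EuclideanSpace.single b (1 : ℝ) : V d)))

theorem AWE2_E_norm (a b : Fin d) : ‖AWE2_E a b‖ ≤ 1 := by
  refine ContinuousLinearMap.opNorm_le_bound _ zero_le_one fun A => ?_
  have e : AWE2_E a b A = (((A (EuclideanSpace.single b (1 : ℝ))) a : ℝ) : ℂ) := rfl
  rw [e, Complex.norm_real, one_mul]
  have h1 : ‖(A (EuclideanSpace.single b (1 : ℝ))) a‖ ≤ ‖A (EuclideanSpace.single b (1 : ℝ))‖ := PiLp.norm_apply_le _ a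
  have h2 := A.le_opNorm (EuclideanSpace.single b (1 : ℝ))
  rw [EuclideanSpace.norm_single, norm_one, mul_one] at h2
  exact h1.trans h2

theorem AWE2_h_eq (G : V d → V d →L[ℝ] V d) (q : P d) (a b : Fin d) : AWE2_h G q a b = AWE2_E a b ∘ fun v => IG G (q.1 + v) := rfl

/-! ### symbols -/

theorem AWE2_mono {K : ℕ} {N m m' : ℝ} {A : V d → ℂ} {v : V d} (hN : 1 ≤ N) (h : WS K N m A v) (hm : m ≤ m') : WS K N m' A v :=
  ⟨h.1, fun k hk => (h.2 k hk).trans (mul_le_mul_of_nonneg_right hm (by positivity))⟩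

theorem AWE2_const {K : ℕ} {N : ℝ} (hN : 1 ≤ N) (c : ℂ) (v : V d) : WS K N ‖c‖ (fun _ : V d => c) v := by
  refine ⟨contDiffAt_const, fun k _ => ?_⟩
  cases k with
  | zero =>
    rw [norm_iteratedFDeriv_zero, pow_zero, mul_one]
  | succ k =>
    rw [iteratedFDeriv_const_of_ne (Nat.succ_ne_zero k)]
    show ‖(0 : V d [×(k + 1)]→L[ℝ] ℂ)‖ ≤ _
    rw [norm_zero]
    positivity

theorem AWE2_fsum {K : ℕ} {N : ℝ} {v : V d} (hN : 1 ≤ N)
    (hadd : ∀ (m1 m2 : ℝ) (A1 A2 : V d → ℂ), 0 ≤ m1 → 0 ≤ m2 → WS K N m1 A1 v → WS K N m2 A2 v → WS K N (m1 + m2) (fun w => A1 w + A2 w) v)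
    {ι : Type} (s : Finset ι) (A : ι → V d → ℂ) (m : ℝ) (hm : 0 ≤ m) (h : ∀ i, WS K N m (A i) v) :
    WS K N (s.card * m) (fun w => ∑ i ∈ s, A i w) v := by
  classical
  induction s using Finset.induction_on with
  | empty =>
    have h1 := AWE2_const (d := d) (K := K) hN (0 : ℂ) v
    rw [norm_zero] at h1
    simpa using h1
  | insert a s ha ih =>
    have h1 := hadd m (s.card * m) (A a) (fun w => ∑ i ∈ s, A i w) hm (by positivity) (h a) ih
    rw [Finset.card_insert_of_notMem ha]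
    have e : (fun w => ∑ i ∈ insert a s, A i w) = fun w => A a w + ∑ i ∈ s, A i w := by
      funext w
      rw [Finset.sum_insert ha]
    rw [e]
    refine AWE2_mono hN h1 (le_of_eq ?_)
    push_cast
    ring

/-- the expansion of the cut-off terms -/
theorem AWE2_eq {G : V d → V d →L[ℝ] V d} (hIG : ContDiff ℝ ∞ (IG G)) {ch : ℝ → ℝ} {ζ R : ℝ} (hX : ContDiff ℝ ∞ (WX ch ζ R : V d → ℂ)) (q : P d) (M : MC d) :
    Wct G ch ζ R q M = fun v => Complex.I * ((∑ j : Fin d, (-(((vel G q) j : ℝ) : ℂ)) * AWE2_X ch ζ R j v) +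
      ∑ a : Fin d, ∑ b : Fin d, AWE2_h G q a b v * (AWE2_X ch ζ R a v * AWE2_g q M b v)) +
      (2 * (R : ℂ))⁻¹ * ∑ i : Fin d, ∑ j : Fin d, (AWE2_Dh G q i j i v * AWE2_X ch ζ R j v + AWE2_h G q j i v * AWE2_XX ch ζ R i j v) := by
  funext v
  unfold Wct
  congr 1
  · congr 1
    congr 1
    rw [AWE2_lin (fderiv ℝ (WX ch ζ R) v) (vel G q), ← Finset.sum_neg_distrib]
    refine Finset.sum_congr rfl fun j _ => ?_
    rw [Complex.real_smul, neg_mul]
    rfl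
  · congr 1
    refine Finset.sum_congr rfl fun i _ => ?_
    have e : (fun y : V d => fderiv ℝ (WX ch ζ R) y (IG G (q.1 + y) (EuclideanSpace.single i 1))) =
        fun y => ∑ j : Fin d, AWE2_h G q j i y * AWE2_X ch ζ R j y := by
      funext y
      rw [AWE2_lin (fderiv ℝ (WX ch ζ R) y) (IG G (q.1 + y) (EuclideanSpace.single i 1))]
      refine Finset.sum_congr rfl fun j _ => ?_
      rw [Complex.real_smul]
      rfl
    have hXd : ∀ j : Fin d, DifferentiableAt ℝ (AWE2_X ch ζ R j : V d → ℂ) v := by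
      intro j
      have h1 : ContDiff ℝ ∞ (fderiv ℝ (WX ch ζ R : V d → ℂ)) := hX.fderiv_right (by simp)
      exact ((h1.differentiable (by simp)) v).clm_apply (differentiableAt_const _)
    have hhd : ∀ a b : Fin d, DifferentiableAt ℝ (AWE2_h G q a b) v := by
      intro a b
      rw [AWE2_h_eq]
      have h1 : ContDiff ℝ ∞ fun v : V d => IG G (q.1 + v) := hIG.comp (contDiff_const.add contDiff_id)
      exact (AWE2_E a b).differentiableAt.comp v ((h1.differentiable (by simp)) v)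
    rw [e, fderiv_fun_sum (fun j _ => (hhd j i).fun_mul (hXd j)), ContinuousLinearMap.sum_apply]
    refine Finset.sum_congr rfl fun j _ => ?_
    rw [fderiv_fun_mul (hhd j i) (hXd j)]
    simp only [ContinuousLinearMap.add_apply, ContinuousLinearMap.smul_apply, smul_eq_mul]
    unfold AWE2_Dh AWE2_XX
    ring

/-- locally constant cut-off -/
theorem AWE2_loc (G : V d → V d →L[ℝ] V d) {ch : ℝ → ℝ} {ζ R : ℝ} (q : P d) (M : MC d) {v : V d} {c : ℂ}
    (h : (WX ch ζ R : V d → ℂ) =ᶠ[𝓝 v] fun _ => c) : Wct G ch ζ R q M =ᶠ[𝓝 v] fun _ => 0 := by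
  have h1 : ∀ᶠ w in 𝓝 v, (WX ch ζ R : V d → ℂ) =ᶠ[𝓝 w] fun _ => c := eventually_eventually_nhds.2 h
  filter_upwards [h1] with w hw
  have h2 : fderiv ℝ (WX ch ζ R : V d → ℂ) =ᶠ[𝓝 w] fun _ => 0 := by
    refine (hw.fderiv (𝕜 := ℝ)).trans (Eventually.of_forall fun y => ?_)
    simp
  have h3 : fderiv ℝ (WX ch ζ R : V d → ℂ) w = 0 := h2.self_of_nhds
  have h4 : ∀ i : Fin d, fderiv ℝ (fun y => fderiv ℝ (WX ch ζ R) y (IG G (q.1 + y) (EuclideanSpace.single i 1))) w = 0 := by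
    intro i
    have h5 : (fun y => fderiv ℝ (WX ch ζ R) y (IG G (q.1 + y) (EuclideanSpace.single i 1))) =ᶠ[𝓝 w] fun _ => (0 : ℂ) := by
      filter_upwards [h2] with y hy
      rw [hy]
      rfl
    rw [h5.fderiv_eq]
    simp
  unfold Wct
  rw [h3]
  have e1 : WhE (IG G (q.1 + w)) (fun i => (0 : V d →L[ℝ] ℂ) (EuclideanSpace.single i 1)) (Wcx q.2 + M.mulVec (Wcx w)) = 0 := by
    unfold WhE
    refine Finset.sum_eq_zero fun i _ => Finset.sum_eq_zero fun j _ => ?_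
    show _ * ((0 : ℂ) * _) = 0
    rw [zero_mul, mul_zero]
  rw [e1]
  simp [h4]

theorem AWE2_proof (hAWCT : AWCT_stmt) (hAWSY : AWSY_stmt) (hAHLD : AHLD_stmt) : AWE2_stmt := by
  intro d Γ _ _ K k B r ch Kd hK hch
  obtain ⟨Cs, hCs, hSY⟩ := hAWSY d Kd
  obtain ⟨Cx, hCx, hCT⟩ := hAWCT d ch (Kd + 2) hch
  obtain ⟨Cq, hCq, hHL⟩ := hAHLD d Γ K k B (|r| + 1) (Kd + 1)
  set r1 : ℝ := |r| with hr1
  have hr0 : 0 ≤ r1 := abs_nonneg r
  have hd0 : (0 : ℝ) ≤ d := Nat.cast_nonneg d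
  refine ⟨Cs * (d * (Cs * (Cq * r1) * Cx) + d * (d * (Cs * Cq * (Cs * Cx * (Cs * (r1 + d)))))) + Cs * (d * (d * (2 * (Cs * Cq * Cx)))) + 1, ?_, ?_⟩
  · have : 0 ≤ Cs * (d * (Cs * (Cq * r1) * Cx) + d * (d * (Cs * Cq * (Cs * Cx * (Cs * (r1 + d)))))) + Cs * (d * (d * (2 * (Cs * Cq * Cx)))) := by positivity
    linarith
  intro G q M m R ζ1 hCl hq1 hq2 hm hM hR hζ hζ8
  obtain ⟨-, -, hIG, -, hIGb⟩ := hHL G hK hCl
  obtain ⟨hX, -, -, hXb, hX1, hX0⟩ := hCT ζ1 R hζ (by linarith) hR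
  have hRp : 0 < R := by linarith
  set N : ℝ := R ^ (1 / 2 : ℝ) with hN
  have hN1 : 1 ≤ N := Real.one_le_rpow hR (by norm_num)
  have hNN : N ^ 2 = R := by
    rw [hN, ← Real.rpow_natCast, ← Real.rpow_mul hRp.le]
    norm_num
  have hNR : N ≤ R := by nlinarith
  -- smoothness
  have hXs : ∀ j : Fin d, ContDiff ℝ ∞ (AWE2_X ch ζ1 R j : V d → ℂ) := by
    intro j
    have h1 : ContDiff ℝ ∞ (fderiv ℝ (WX ch ζ1 R : V d → ℂ)) := hX.fderiv_right (by simp)
    exact h1.clm_apply contDiff_const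
  have hXXs : ∀ i j : Fin d, ContDiff ℝ ∞ (AWE2_XX ch ζ1 R i j : V d → ℂ) := by
    intro i j
    have h1 : ContDiff ℝ ∞ (fderiv ℝ (AWE2_X ch ζ1 R j : V d → ℂ)) := (hXs j).fderiv_right (by simp)
    exact h1.clm_apply contDiff_const
  have hsh : ContDiff ℝ ∞ fun v : V d => IG G (q.1 + v) := hIG.comp (contDiff_const.add contDiff_id)
  have hhs : ∀ a b : Fin d, ContDiff ℝ ∞ (AWE2_h G q a b) := by
    intro a b
    rw [AWE2_h_eq]
    exact (AWE2_E a b).contDiff.comp hsh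
  have hDhs : ∀ i a b : Fin d, ContDiff ℝ ∞ (AWE2_Dh G q i a b) := by
    intro i a b
    have h1 : ContDiff ℝ ∞ (fderiv ℝ (AWE2_h G q a b)) := (hhs a b).fderiv_right (by simp)
    exact h1.clm_apply contDiff_const
  have hcoord : ∀ l : Fin d, ContDiff ℝ ∞ fun v : V d => ((v l : ℝ) : ℂ) := fun l =>
    Complex.ofRealCLM.contDiff.comp (EuclideanSpace.proj l : V d →L[ℝ] ℝ).contDiff
  have hgs : ∀ b : Fin d, ContDiff ℝ ∞ (AWE2_g q M b) := by
    intro b
    unfold AWE2_g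
    exact contDiff_const.add (ContDiff.sum fun l _ => contDiff_const.mul (hcoord l))
  have heq := AWE2_eq hIG hX q M
  refine ⟨?_, ?_, fun v hv => AWE2_loc G q M (hX1 v hv), fun v hv => AWE2_loc G q M (hX0 v hv)⟩
  · rw [heq]
    refine (contDiff_const.mul ((ContDiff.sum fun j _ => contDiff_const.mul (hXs j)).add (ContDiff.sum fun a _ => ContDiff.sum fun b _ =>
      (hhs a b).mul ((hXs a).mul (hgs b))))).add (contDiff_const.mul (ContDiff.sum fun i _ => ContDiff.sum fun j _ =>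
      ((hDhs i j i).mul (hXs j)).add ((hhs j i).mul (hXXs i j))))
  intro v hv
  have hqv : ‖q.1 + v‖ ≤ r1 + 1 := (norm_add_le _ _).trans (add_le_add (hq1.trans (le_abs_self r)) hv)
  have hmul : ∀ (m1 m2 : ℝ) (A1 A2 : V d → ℂ), 0 ≤ m1 → 0 ≤ m2 → WS Kd N m1 A1 v → WS Kd N m2 A2 v → WS Kd N (Cs * m1 * m2) (fun w => A1 w * A2 w) v :=
    fun m1 m2 A1 A2 h1 h2 h3 h4 => (hSY.1 N m1 m2 A1 A2 v hN1 h1 h2 h3 h4).1
  have hadd : ∀ (m1 m2 : ℝ) (A1 A2 : V d → ℂ), 0 ≤ m1 → 0 ≤ m2 → WS Kd N m1 A1 v → WS Kd N m2 A2 v → WS Kd N (m1 + m2) (fun w => A1 w + A2 w) v :=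
    fun m1 m2 A1 A2 h1 h2 h3 h4 => (hSY.1 N m1 m2 A1 A2 v hN1 h1 h2 h3 h4).2
  have hpow : ∀ k : ℕ, 1 ≤ N ^ k := fun k => one_le_pow₀ hN1
  -- the entries
  have happ : ∀ (j : Fin d) (L : V d →L[ℝ] ℂ), ‖L (EuclideanSpace.single j (1 : ℝ))‖ ≤ ‖L‖ := by
    intro j L
    have h2 := L.le_opNorm (EuclideanSpace.single j (1 : ℝ))
    rwa [EuclideanSpace.norm_single, norm_one, mul_one] at h2
  have hapn : ∀ j : Fin d, ‖(ContinuousLinearMap.apply ℝ ℂ (EuclideanSpace.single j (1 : ℝ) : V d))‖ ≤ 1 := by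
    intro j
    refine ContinuousLinearMap.opNorm_le_bound _ zero_le_one fun L => ?_
    rw [one_mul]
    exact happ j L
  have hder : ∀ (F : V d → ℂ) (j : Fin d) (k : ℕ), ContDiff ℝ ∞ F →
      ‖iteratedFDeriv ℝ k (fun w => fderiv ℝ F w (EuclideanSpace.single j (1 : ℝ))) v‖ ≤ ‖iteratedFDeriv ℝ (k + 1) F v‖ := by
    intro F j k hF
    have h1 : ContDiff ℝ ∞ (fderiv ℝ F) := hF.fderiv_right (by simp)
    have h2 := (ContinuousLinearMap.apply ℝ ℂ (EuclideanSpace.single j (1 : ℝ) : V d)).norm_iteratedFDeriv_comp_left (n := k)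
      (h1.contDiffAt (x := v)) (by exact_mod_cast le_top)
    rw [norm_iteratedFDeriv_fderiv] at h2
    calc _ ≤ ‖(ContinuousLinearMap.apply ℝ ℂ (EuclideanSpace.single j (1 : ℝ) : V d))‖ * ‖iteratedFDeriv ℝ (k + 1) F v‖ := h2
      _ ≤ 1 * ‖iteratedFDeriv ℝ (k + 1) F v‖ := mul_le_mul_of_nonneg_right (hapn j) (norm_nonneg _)
      _ = _ := one_mul _
  have wX : ∀ j : Fin d, WS Kd N (Cx * N) (AWE2_X ch ζ1 R j) v := by
    intro j
    refine ⟨(hXs j).contDiffAt, fun k hk => ?_⟩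
    refine (hder (WX ch ζ1 R) j k hX).trans ((hXb (k + 1) (by omega) v).trans (le_of_eq ?_))
    rw [pow_succ]
    ring
  have wXX : ∀ i j : Fin d, WS Kd N (Cx * N ^ 2) (AWE2_XX ch ζ1 R i j) v := by
    intro i j
    refine ⟨(hXXs i j).contDiffAt, fun k hk => ?_⟩
    refine (hder (AWE2_X ch ζ1 R j) i k (hXs j)).trans ((hder (WX ch ζ1 R) j (k + 1) hX).trans ((hXb (k + 1 + 1) (by omega) v).trans (le_of_eq ?_)))
    rw [pow_succ, pow_succ]
    ring
  have hhb : ∀ (a b : Fin d) (k : ℕ), k ≤ Kd + 1 → ‖iteratedFDeriv ℝ k (AWE2_h G q a b) v‖ ≤ Cq := by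
    intro a b k hk
    rw [AWE2_h_eq]
    refine ((AWE2_E a b).norm_iteratedFDeriv_comp_left (n := k) (hsh.contDiffAt (x := v)) (by exact_mod_cast le_top)).trans ?_
    have h1 : iteratedFDeriv ℝ k (fun v : V d => IG G (q.1 + v)) v = iteratedFDeriv ℝ k (IG G) (q.1 + v) := by
      rw [iteratedFDeriv_comp_add_left]
    rw [h1]
    have h2 := ((hIGb (q.1 + v) hqv).2.1 k hk).2.2.2
    calc ‖AWE2_E a b‖ * ‖iteratedFDeriv ℝ k (IG G) (q.1 + v)‖ ≤ 1 * Cq := mul_le_mul (AWE2_E_norm a b) h2 (norm_nonneg _) zero_le_one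
      _ = Cq := one_mul _
  have hCq0 : 0 ≤ Cq := by linarith
  have wh : ∀ a b : Fin d, WS Kd N Cq (AWE2_h G q a b) v := by
    intro a b
    refine ⟨(hhs a b).contDiffAt, fun k hk => ?_⟩
    exact (hhb a b k (by omega)).trans (le_mul_of_one_le_right hCq0 (hpow k))
  have wDh : ∀ i a b : Fin d, WS Kd N Cq (AWE2_Dh G q i a b) v := by
    intro i a b
    refine ⟨(hDhs i a b).contDiffAt, fun k hk => ?_⟩
    exact (hder (AWE2_h G q a b) i k (hhs a b)).trans ((hhb a b (k + 1) (by omega)).trans (le_mul_of_one_le_right hCq0 (hpow k)))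
  -- the linear factor
  have wco : ∀ l : Fin d, WS Kd N 1 (fun w : V d => ((w l : ℝ) : ℂ)) v := by
    intro l
    refine ⟨(hcoord l).contDiffAt, fun k hk => ?_⟩
    set L : V d →L[ℝ] ℂ := Complex.ofRealCLM.comp (EuclideanSpace.proj l : V d →L[ℝ] ℝ) with hL
    have hLn : ‖L‖ ≤ 1 := by
      refine ContinuousLinearMap.opNorm_le_bound _ zero_le_one fun w => ?_
      have e : L w = ((w l : ℝ) : ℂ) := rfl
      rw [e, Complex.norm_real, one_mul]
      exact PiLp.norm_apply_le w l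
    have e : (fun w : V d => ((w l : ℝ) : ℂ)) = L := rfl
    rw [e]
    rcases k with _ | _ | k
    · rw [norm_iteratedFDeriv_zero, pow_zero, mul_one]
      calc ‖L v‖ ≤ ‖L‖ * ‖v‖ := L.le_opNorm v
        _ ≤ 1 * 1 := mul_le_mul hLn hv (norm_nonneg _) zero_le_one
        _ = 1 := one_mul _
    · rw [zero_add, norm_iteratedFDeriv_one, L.fderiv, pow_one, one_mul]
      exact hLn.trans hN1
    · rw [← norm_iteratedFDeriv_fderiv]
      have e2 : fderiv ℝ (L : V d → ℂ) = fun _ => L := funext fun w => L.fderiv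
      rw [e2, iteratedFDeriv_const_of_ne (Nat.succ_ne_zero k)]
      refine ContinuousMultilinearMap.opNorm_le_bound (by positivity) fun z => ?_
      show ‖(0 : V d →L[ℝ] ℂ)‖ ≤ _
      rw [norm_zero]
      positivity
  have wg : ∀ b : Fin d, WS Kd N ((r1 + d * (Cs * m * 1))) (AWE2_g q M b) v := by
    intro b
    have h1 : WS Kd N r1 (fun _ : V d => ((q.2 b : ℝ) : ℂ)) v := by
      refine AWE2_mono hN1 (AWE2_const hN1 _ v) ?_
      rw [Complex.norm_real]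
      exact (PiLp.norm_apply_le q.2 b).trans (hq2.trans (le_abs_self r))
    have h2 : ∀ l : Fin d, WS Kd N (Cs * m * 1) (fun w : V d => M b l * ((w l : ℝ) : ℂ)) v := by
      intro l
      refine hmul m 1 _ _ (by linarith) zero_le_one ?_ (wco l)
      exact AWE2_mono hN1 (AWE2_const hN1 _ v) (hM b l)
    have h3 := AWE2_fsum hN1 hadd Finset.univ (fun (l : Fin d) (w : V d) => M b l * ((w l : ℝ) : ℂ)) (Cs * m * 1) (by positivity) h2
    have h4 := hadd r1 _ _ _ hr0 (by positivity) h1 h3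
    refine AWE2_mono hN1 h4 (le_of_eq ?_)
    rw [Finset.card_univ, Fintype.card_fin]
  have hCs0 : 0 ≤ Cs := by linarith
  have hCx0 : 0 ≤ Cx := by linarith
  have hm0 : 0 ≤ m := by linarith
  have hN0 : 0 ≤ N := by linarith
  have hgm : r1 + d * (Cs * m * 1) ≤ Cs * ((r1 + d) * m) := by
    have h1 : r1 ≤ Cs * (r1 * m) := by
      calc r1 = 1 * (r1 * 1) := by ring
        _ ≤ Cs * (r1 * m) := mul_le_mul hCs (mul_le_mul_of_nonneg_left hm hr0) (by positivity) hCs0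
    calc r1 + d * (Cs * m * 1) ≤ Cs * (r1 * m) + d * (Cs * m * 1) := by linarith
      _ = Cs * ((r1 + d) * m) := by ring
  have wg' : ∀ b : Fin d, WS Kd N (Cs * ((r1 + d) * m)) (AWE2_g q M b) v := fun b => AWE2_mono hN1 (wg b) hgm
  -- the three parts
  have hvel : ∀ j : Fin d, ‖(-(((vel G q) j : ℝ) : ℂ))‖ ≤ Cq * r1 := by
    intro j
    rw [norm_neg, Complex.norm_real]
    have h1 : ‖(vel G q) j‖ ≤ ‖vel G q‖ := PiLp.norm_apply_le _ j
    have h2 : ‖vel G q‖ ≤ ‖IG G q.1‖ * ‖q.2‖ := (IG G q.1).le_opNorm q.2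
    have hq1' : ‖q.1‖ ≤ r1 + 1 := (hq1.trans (le_abs_self r)).trans (by linarith)
    have h3 := ((hIGb q.1 hq1').2.1 0 (Nat.zero_le _)).2.2.2
    rw [norm_iteratedFDeriv_zero] at h3
    exact h1.trans (h2.trans (mul_le_mul h3 (hq2.trans (le_abs_self r)) (norm_nonneg _) hCq0))
  have t1 := AWE2_fsum hN1 hadd Finset.univ (fun (j : Fin d) (w : V d) => (-(((vel G q) j : ℝ) : ℂ)) * AWE2_X ch ζ1 R j w)
    (Cs * (Cq * r1) * (Cx * N)) (by positivity) fun j =>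
      hmul (Cq * r1) (Cx * N) _ _ (by positivity) (by positivity) (AWE2_mono hN1 (AWE2_const hN1 _ v) (hvel j)) (wX j)
  have t2 := AWE2_fsum hN1 hadd Finset.univ (fun (a : Fin d) (w : V d) => ∑ b : Fin d, AWE2_h G q a b w * (AWE2_X ch ζ1 R a w * AWE2_g q M b w))
    ((Finset.univ : Finset (Fin d)).card * (Cs * Cq * (Cs * (Cx * N) * (Cs * ((r1 + d) * m))))) (by positivity) fun a =>
      AWE2_fsum hN1 hadd Finset.univ (fun (b : Fin d) (w : V d) => AWE2_h G q a b w * (AWE2_X ch ζ1 R a w * AWE2_g q M b w))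
        (Cs * Cq * (Cs * (Cx * N) * (Cs * ((r1 + d) * m)))) (by positivity) fun b =>
          hmul Cq (Cs * (Cx * N) * (Cs * ((r1 + d) * m))) _ _ hCq0 (by positivity) (wh a b)
            (hmul (Cx * N) (Cs * ((r1 + d) * m)) _ _ (by positivity) (by positivity) (wX a) (wg' b))
  have t3 := AWE2_fsum hN1 hadd Finset.univ (fun (i : Fin d) (w : V d) => ∑ j : Fin d, (AWE2_Dh G q i j i w * AWE2_X ch ζ1 R j w + AWE2_h G q j i w * AWE2_XX ch ζ1 R i j w))
    ((Finset.univ : Finset (Fin d)).card * (Cs * Cq * (Cx * N) + Cs * Cq * (Cx * N ^ 2))) (by positivity) fun i =>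
      AWE2_fsum hN1 hadd Finset.univ (fun (j : Fin d) (w : V d) => AWE2_Dh G q i j i w * AWE2_X ch ζ1 R j w + AWE2_h G q j i w * AWE2_XX ch ζ1 R i j w)
        (Cs * Cq * (Cx * N) + Cs * Cq * (Cx * N ^ 2)) (by positivity) fun j =>
          hadd _ _ _ _ (by positivity) (by positivity) (hmul Cq (Cx * N) _ _ hCq0 (by positivity) (wDh i j i) (wX j))
            (hmul Cq (Cx * N ^ 2) _ _ hCq0 (by positivity) (wh j i) (wXX i j))
  rw [Finset.card_univ, Fintype.card_fin] at t1 t2 t3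
  have cI : WS Kd N 1 (fun _ : V d => Complex.I) v := AWE2_mono hN1 (AWE2_const hN1 _ v) (by rw [Complex.norm_I])
  have cR : WS Kd N R⁻¹ (fun _ : V d => (2 * (R : ℂ))⁻¹) v := by
    refine AWE2_mono hN1 (AWE2_const hN1 _ v) ?_
    rw [norm_inv, norm_mul, Complex.norm_real, Complex.norm_ofNat, Real.norm_eq_abs, abs_of_pos hRp]
    exact inv_anti₀ hRp (by linarith)
  have t12 := hmul 1 _ _ _ zero_le_one (by positivity) cI (hadd _ _ _ _ (by positivity) (by positivity) t1 t2)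
  have t33 := hmul R⁻¹ _ _ _ (by positivity) (by positivity) cR t3
  have tt := hadd _ _ _ _ (by positivity) (by positivity) t12 t33
  rw [heq]
  refine AWE2_mono hN1 tt ?_
  have e1 : Cs * R⁻¹ * (d * (d * (Cs * Cq * (Cx * N) + Cs * Cq * (Cx * N ^ 2)))) ≤ Cs * (d * (d * (2 * (Cs * Cq * Cx)))) := by
    have h1 : Cs * Cq * (Cx * N) + Cs * Cq * (Cx * N ^ 2) ≤ R * (2 * (Cs * Cq * Cx)) := by
      rw [hNN]
      have h2 : Cs * Cq * (Cx * N) ≤ Cs * Cq * (Cx * R) := by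
        refine mul_le_mul_of_nonneg_left (mul_le_mul_of_nonneg_left hNR hCx0) (by positivity)
      linarith
    calc Cs * R⁻¹ * (d * (d * (Cs * Cq * (Cx * N) + Cs * Cq * (Cx * N ^ 2)))) ≤ Cs * R⁻¹ * (d * (d * (R * (2 * (Cs * Cq * Cx))))) := by
          refine mul_le_mul_of_nonneg_left (mul_le_mul_of_nonneg_left (mul_le_mul_of_nonneg_left h1 hd0) hd0) (by positivity)
      _ = (R⁻¹ * R) * (Cs * (d * (d * (2 * (Cs * Cq * Cx))))) := by ring
      _ = Cs * (d * (d * (2 * (Cs * Cq * Cx)))) := by rw [inv_mul_cancel₀ hRp.ne', one_mul]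
  have hmR : 1 ≤ m * R := by nlinarith
  have e2 : Cs * 1 * (d * (Cs * (Cq * r1) * (Cx * N)) + d * (d * (Cs * Cq * (Cs * (Cx * N) * (Cs * ((r1 + d) * m)))))) ≤
      Cs * (d * (Cs * (Cq * r1) * Cx) + d * (d * (Cs * Cq * (Cs * Cx * (Cs * (r1 + d)))))) * (m * R) := by
    have h1 : d * (Cs * (Cq * r1) * (Cx * N)) ≤ d * (Cs * (Cq * r1) * Cx) * (m * R) := by
      have h2 : N ≤ m * R := by nlinarith
      calc d * (Cs * (Cq * r1) * (Cx * N)) = d * (Cs * (Cq * r1) * Cx) * N := by ring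
        _ ≤ _ := mul_le_mul_of_nonneg_left h2 (by positivity)
    have h3 : d * (d * (Cs * Cq * (Cs * (Cx * N) * (Cs * ((r1 + d) * m))))) ≤ d * (d * (Cs * Cq * (Cs * Cx * (Cs * (r1 + d))))) * (m * R) := by
      have h2 : m * N ≤ m * R := mul_le_mul_of_nonneg_left hNR hm0
      calc d * (d * (Cs * Cq * (Cs * (Cx * N) * (Cs * ((r1 + d) * m))))) = d * (d * (Cs * Cq * (Cs * Cx * (Cs * (r1 + d))))) * (m * N) := by ring
        _ ≤ _ := mul_le_mul_of_nonneg_left h2 (by positivity)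
    calc _ = Cs * (d * (Cs * (Cq * r1) * (Cx * N)) + d * (d * (Cs * Cq * (Cs * (Cx * N) * (Cs * ((r1 + d) * m)))))) := by ring
      _ ≤ Cs * (d * (Cs * (Cq * r1) * Cx) * (m * R) + d * (d * (Cs * Cq * (Cs * Cx * (Cs * (r1 + d))))) * (m * R)) :=
          mul_le_mul_of_nonneg_left (add_le_add h1 h3) hCs0
      _ = _ := by ring
  have e3 : Cs * (d * (d * (2 * (Cs * Cq * Cx)))) ≤ Cs * (d * (d * (2 * (Cs * Cq * Cx)))) * (m * R) := le_mul_of_one_le_right (by positivity) hmR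
  have e4 : (0 : ℝ) ≤ 1 * (m * R) := by positivity
  calc _ ≤ Cs * (d * (Cs * (Cq * r1) * Cx) + d * (d * (Cs * Cq * (Cs * Cx * (Cs * (r1 + d)))))) * (m * R) +
        Cs * (d * (d * (2 * (Cs * Cq * Cx)))) * (m * R) := add_le_add e2 (e1.trans e3)
    _ ≤ (Cs * (d * (Cs * (Cq * r1) * Cx) + d * (d * (Cs * Cq * (Cs * Cx * (Cs * (r1 + d)))))) + Cs * (d * (d * (2 * (Cs * Cq * Cx)))) + 1) * (m * R) := by
        have : (Cs * (d * (Cs * (Cq * r1) * Cx) + d * (d * (Cs * Cq * (Cs * Cx * (Cs * (r1 + d)))))) + Cs * (d * (d * (2 * (Cs * Cq * Cx)))) + 1) * (m * R) =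
          Cs * (d * (Cs * (Cq * r1) * Cx) + d * (d * (Cs * Cq * (Cs * Cx * (Cs * (r1 + d)))))) * (m * R) +
            Cs * (d * (d * (2 * (Cs * Cq * Cx)))) * (m * R) + 1 * (m * R) := by ring
        rw [this]
        linarith
    _ = _ := by ring

end

end Pool.Agent.VD
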