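import Pool.Agent.helper47.VD.SpecA1

/-!
# Row vd:ABRG (MP_07c750_an): the derivatives of the truncated Gaussian
-/

set_option autoImplicit false

open scoped ContDiff Topology InnerProductSpace ComplexConjugate ENNReal
open MeasureTheory Filter Set

namespace Pool.Agent.VD

open Pool.Agent.VQ (CH)

noncomputable section

/-- the inner product as a continuous bilinear map -/
def ABRG_J (d : ℕ) : V d →L[ℝ] V d →L[ℝ] ℝ :=
  (innerₗ (V d)).mkContinuous₂ 1 (fun x y => by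
    rw [one_mul]
    exact norm_inner_le_norm x y)

theorem ABRG_J_apply {d : ℕ} (x y : V d) : ABRG_J d x y = ⟪x, y⟫_ℝ := rfl

theorem ABRG_J_norm {d : ℕ} : ‖ABRG_J d‖ ≤ 1 := LinearMap.mkContinuous₂_norm_le _ zero_le_one _

theorem ABRG_J_norm' {d : ℕ} (x : V d) : ‖ABRG_J d x‖ ≤ ‖x‖ := by
  have h := (ABRG_J d).le_opNorm x
  refine h.trans ?_
  calc ‖ABRG_J d‖ * ‖x‖ ≤ 1 * ‖x‖ := mul_le_mul_of_nonneg_right ABRG_J_norm (norm_nonneg _)
    _ = ‖x‖ := one_mul _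

/-- the profile function -/
def ABRG_F (ch : ℝ → ℝ) (R a : ℝ) (s : ℝ) : ℝ := Real.exp (-(R * s / 2)) * ch (a * s)

def ABRG_F1 (ch : ℝ → ℝ) (R a : ℝ) (s : ℝ) : ℝ :=
  Real.exp (-(R * s / 2)) * (a * deriv ch (a * s) - R / 2 * ch (a * s))

def ABRG_F2 (ch : ℝ → ℝ) (R a : ℝ) (s : ℝ) : ℝ :=
  Real.exp (-(R * s / 2)) * (a ^ 2 * deriv (deriv ch) (a * s) - R * a * deriv ch (a * s) + R ^ 2 / 4 * ch (a * s))

theorem ABRG_e (R s : ℝ) : HasDerivAt (fun s => Real.exp (-(R * s / 2))) (Real.exp (-(R * s / 2)) * (-(R / 2))) s := by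
  have h1 : HasDerivAt (fun s : ℝ => -(R * s / 2)) (-(R / 2)) s := by
    have h2 := (((hasDerivAt_id s).const_mul R).div_const 2).neg
    simp only [mul_one] at h2
    exact h2
  exact h1.exp

theorem ABRG_c {c : ℝ → ℝ} (hc : Differentiable ℝ c) (a s : ℝ) : HasDerivAt (fun s => c (a * s)) (a * deriv c (a * s)) s := by
  have h1 : HasDerivAt (fun s : ℝ => a * s) a s := by
    have h2 := (hasDerivAt_id s).const_mul a
    simp only [mul_one] at h2
    exact h2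
  have h3 := (hc (a * s)).hasDerivAt.comp s h1
  rw [mul_comm] at h3
  exact h3

theorem ABRG_hF {ch : ℝ → ℝ} (hc : Differentiable ℝ ch) (R a s : ℝ) : HasDerivAt (ABRG_F ch R a) (ABRG_F1 ch R a s) s := by
  have h := (ABRG_e R s).fun_mul (ABRG_c hc a s)
  have e : Real.exp (-(R * s / 2)) * (-(R / 2)) * ch (a * s) + Real.exp (-(R * s / 2)) * (a * deriv ch (a * s)) = ABRG_F1 ch R a s := by
    unfold ABRG_F1
    ring
  rw [e] at h
  exact h

theorem ABRG_hF1 {ch : ℝ → ℝ} (hc : Differentiable ℝ ch) (hc' : Differentiable ℝ (deriv ch)) (R a s : ℝ) :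
    HasDerivAt (ABRG_F1 ch R a) (ABRG_F2 ch R a s) s := by
  have h := (ABRG_e R s).fun_mul (((ABRG_c hc' a s).const_mul a).fun_sub ((ABRG_c hc a s).const_mul (R / 2)))
  have e : Real.exp (-(R * s / 2)) * (-(R / 2)) * (a * deriv ch (a * s) - R / 2 * ch (a * s)) +
      Real.exp (-(R * s / 2)) * (a * (a * deriv (deriv ch) (a * s)) - R / 2 * (a * deriv ch (a * s))) = ABRG_F2 ch R a s := by
    unfold ABRG_F2
    ring
  rw [e] at h
  exact h

theorem ABRG_nsq {d : ℕ} (v : V d) : HasFDerivAt (fun v : V d => ‖v‖ ^ 2) ((2 : ℝ) • ABRG_J d v) v := by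
  have h := (hasStrictFDerivAt_norm_sq v).hasFDerivAt
  have e : (2 • (innerSL ℝ v) : V d →L[ℝ] ℝ) = (2 : ℝ) • ABRG_J d v := by
    ext w
    simp [ABRG_J_apply]
  rw [e] at h
  exact h

theorem ABRG_d1 {d : ℕ} {ch : ℝ → ℝ} (hc : Differentiable ℝ ch) (ζ R : ℝ) (v : V d) :
    HasFDerivAt (b0 ch ζ R : V d → ℝ) ((2 * ABRG_F1 ch R (R ^ (1 - 2 * ζ)) (‖v‖ ^ 2)) • ABRG_J d v) v := by
  have h := (ABRG_hF hc R (R ^ (1 - 2 * ζ)) (‖v‖ ^ 2)).comp_hasFDerivAt v (ABRG_nsq v)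
  have e : ABRG_F1 ch R (R ^ (1 - 2 * ζ)) (‖v‖ ^ 2) • (2 : ℝ) • ABRG_J d v =
      (2 * ABRG_F1 ch R (R ^ (1 - 2 * ζ)) (‖v‖ ^ 2)) • ABRG_J d v := by
    rw [smul_smul, mul_comm]
  rw [e] at h
  exact h

theorem ABRG_d2 {d : ℕ} {ch : ℝ → ℝ} (hc : Differentiable ℝ ch) (hc' : Differentiable ℝ (deriv ch)) (ζ R : ℝ) (v : V d) :
    HasFDerivAt (fderiv ℝ (b0 ch ζ R : V d → ℝ)) ((2 * ABRG_F1 ch R (R ^ (1 - 2 * ζ)) (‖v‖ ^ 2)) • ABRG_J d +
      ((4 * ABRG_F2 ch R (R ^ (1 - 2 * ζ)) (‖v‖ ^ 2)) • ABRG_J d v).smulRight (ABRG_J d v)) v := by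
  have e0 : fderiv ℝ (b0 ch ζ R : V d → ℝ) = fun v => (2 * ABRG_F1 ch R (R ^ (1 - 2 * ζ)) (‖v‖ ^ 2)) • ABRG_J d v :=
    funext fun v => (ABRG_d1 hc ζ R v).fderiv
  rw [e0]
  have h1 := ((ABRG_hF1 hc hc' R (R ^ (1 - 2 * ζ)) (‖v‖ ^ 2)).comp_hasFDerivAt v (ABRG_nsq v)).const_mul 2
  have h2 := (ABRG_J d).hasFDerivAt (x := v)
  have h3 := h1.fun_smul h2
  have e : (2 : ℝ) • ABRG_F2 ch R (R ^ (1 - 2 * ζ)) (‖v‖ ^ 2) • (2 : ℝ) • ABRG_J d v =
      (4 * ABRG_F2 ch R (R ^ (1 - 2 * ζ)) (‖v‖ ^ 2)) • ABRG_J d v := by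
    rw [smul_smul, smul_smul]
    congr 1
    ring
  rw [e] at h3
  exact h3

theorem ABRG_bd {ch : ℝ → ℝ} (hch : CH ch) : ∃ M : ℝ, 0 ≤ M ∧ ∀ s ∈ Icc (0 : ℝ) 1, |deriv ch s| ≤ M ∧ |deriv (deriv ch) s| ≤ M := by
  have h1 : Continuous (deriv ch) := hch.smooth.continuous_deriv (by simp)
  have h2 : ContDiff ℝ 1 (deriv ch) := by
    have h3 : ContDiff ℝ 2 ch := contDiff_infty.1 hch.smooth 2
    have h4 := (contDiff_succ_iff_deriv (n := 1)).1 h3
    exact h4.2.2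
  have h3 : Continuous (deriv (deriv ch)) := h2.continuous_deriv (by norm_num)
  obtain ⟨M1, hM1⟩ := isCompact_Icc.exists_bound_of_continuousOn (s := Icc (0 : ℝ) 1) h1.continuousOn
  obtain ⟨M2, hM2⟩ := isCompact_Icc.exists_bound_of_continuousOn (s := Icc (0 : ℝ) 1) h3.continuousOn
  refine ⟨max (max M1 M2) 0, le_max_right _ _, fun s hs => ⟨?_, ?_⟩⟩
  · exact (hM1 s hs).trans ((le_max_left _ _).trans (le_max_left _ _))
  · exact (hM2 s hs).trans ((le_max_right _ _).trans (le_max_left _ _))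

theorem ABRG_proof : ABRG_stmt := by
  intro d ch ζ hch hζ hζ1
  obtain ⟨M, hM0, hM⟩ := ABRG_bd hch
  have hcd : Differentiable ℝ ch := hch.smooth.differentiable (by simp)
  have hcd' : Differentiable ℝ (deriv ch) := by
    have h3 : ContDiff ℝ 2 ch := contDiff_infty.1 hch.smooth 2
    have h4 := (contDiff_succ_iff_deriv (n := 1)).1 h3
    exact h4.2.2.differentiable (by norm_num)
  -- the constant
  obtain ⟨R0, hR0⟩ : ∃ R0 : ℝ, ∀ R ≥ R0, 2 + 10 * M ≤ R ^ ζ := by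
    have := (tendsto_rpow_atTop hζ).eventually_ge_atTop (2 + 10 * M)
    exact eventually_atTop.1 this
  refine ⟨max R0 1, le_max_right _ _, fun R hR v => ?_⟩
  have hR1 : 1 ≤ R := (le_max_right _ _).trans hR
  have hRp : 0 < R := by linarith
  have hRz : 2 + 10 * M ≤ R ^ ζ := hR0 R ((le_max_left _ _).trans hR)
  set a : ℝ := R ^ (1 - 2 * ζ) with ha
  have ha0 : 0 < a := Real.rpow_pos_of_pos hRp _
  have haR : a ≤ R := by
    rw [ha]
    calc R ^ (1 - 2 * ζ) ≤ R ^ (1 : ℝ) := Real.rpow_le_rpow_of_exponent_le hR1 (by linarith)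
      _ = R := Real.rpow_one R
  set ρ : ℝ := R ^ (-(1 / 2) + ζ) with hρ
  have hρ0 : 0 < ρ := Real.rpow_pos_of_pos hRp _
  have haρ : a * ρ ^ 2 = 1 := by
    rw [ha, hρ, ← Real.rpow_natCast (R ^ (-(1 / 2) + ζ)) 2, ← Real.rpow_mul hRp.le, ← Real.rpow_add hRp]
    have : (1 - 2 * ζ + (-(1 / 2) + ζ) * ((2 : ℕ) : ℝ)) = 0 := by
      push_cast
      ring
    rw [this, Real.rpow_zero]
  by_cases hv : ‖v‖ ≤ ρ
  · -- inside the ball
    have hgk : gk ζ R v = Real.exp (-(R * ‖v‖ ^ 2 / 2)) := by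
      unfold gk
      rw [indicator_of_mem]
      rw [Metric.mem_closedBall, dist_zero_right]
      exact hv
    rw [hgk]
    set E : ℝ := Real.exp (-(R * ‖v‖ ^ 2 / 2)) with hE
    have hE0 : 0 < E := Real.exp_pos _
    have hs : a * ‖v‖ ^ 2 ∈ Icc (0 : ℝ) 1 := by
      refine ⟨by positivity, ?_⟩
      rw [← haρ]
      exact mul_le_mul_of_nonneg_left (pow_le_pow_left₀ (norm_nonneg _) hv 2) ha0.le
    obtain ⟨m1, m2⟩ := hM _ hs
    obtain ⟨c0, c1⟩ := hch.bd (a * ‖v‖ ^ 2)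
    have hF1 : |ABRG_F1 ch R a (‖v‖ ^ 2)| ≤ E * ((1 / 2 + M) * R) := by
      unfold ABRG_F1
      rw [← hE, abs_mul, abs_of_pos hE0]
      refine mul_le_mul_of_nonneg_left ?_ hE0.le
      have b1 : |a * deriv ch (a * ‖v‖ ^ 2)| ≤ R * M := by
        rw [abs_mul, abs_of_pos ha0]
        exact mul_le_mul haR m1 (abs_nonneg _) hRp.le
      have b2 : |R / 2 * ch (a * ‖v‖ ^ 2)| ≤ R / 2 := by
        rw [abs_mul, abs_of_pos (by positivity : (0 : ℝ) < R / 2), abs_of_nonneg c0]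
        exact mul_le_of_le_one_right (by positivity) c1
      calc |a * deriv ch (a * ‖v‖ ^ 2) - R / 2 * ch (a * ‖v‖ ^ 2)| ≤ |a * deriv ch (a * ‖v‖ ^ 2)| + |R / 2 * ch (a * ‖v‖ ^ 2)| := abs_sub _ _
        _ ≤ R * M + R / 2 := add_le_add b1 b2
        _ = (1 / 2 + M) * R := by ring
    have hF2 : |ABRG_F2 ch R a (‖v‖ ^ 2)| ≤ E * ((1 / 4 + 2 * M) * R ^ 2) := by
      unfold ABRG_F2
      rw [← hE, abs_mul, abs_of_pos hE0]
      refine mul_le_mul_of_nonneg_left ?_ hE0.le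
      have b1 : |a ^ 2 * deriv (deriv ch) (a * ‖v‖ ^ 2)| ≤ R ^ 2 * M := by
        rw [abs_mul, abs_of_pos (by positivity : (0 : ℝ) < a ^ 2)]
        exact mul_le_mul (pow_le_pow_left₀ ha0.le haR 2) m2 (abs_nonneg _) (by positivity)
      have b2 : |R * a * deriv ch (a * ‖v‖ ^ 2)| ≤ R ^ 2 * M := by
        rw [abs_mul, abs_of_pos (by positivity : (0 : ℝ) < R * a)]
        refine mul_le_mul ?_ m1 (abs_nonneg _) (by positivity)
        nlinarith
      have b3 : |R ^ 2 / 4 * ch (a * ‖v‖ ^ 2)| ≤ R ^ 2 / 4 := by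
        rw [abs_mul, abs_of_pos (by positivity : (0 : ℝ) < R ^ 2 / 4), abs_of_nonneg c0]
        exact mul_le_of_le_one_right (by positivity) c1
      calc |a ^ 2 * deriv (deriv ch) (a * ‖v‖ ^ 2) - R * a * deriv ch (a * ‖v‖ ^ 2) + R ^ 2 / 4 * ch (a * ‖v‖ ^ 2)|
          ≤ |a ^ 2 * deriv (deriv ch) (a * ‖v‖ ^ 2) - R * a * deriv ch (a * ‖v‖ ^ 2)| + |R ^ 2 / 4 * ch (a * ‖v‖ ^ 2)| := abs_add_le _ _
        _ ≤ |a ^ 2 * deriv (deriv ch) (a * ‖v‖ ^ 2)| + |R * a * deriv ch (a * ‖v‖ ^ 2)| + |R ^ 2 / 4 * ch (a * ‖v‖ ^ 2)| :=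
            add_le_add_left (abs_sub _ _) _
        _ ≤ R ^ 2 * M + R ^ 2 * M + R ^ 2 / 4 := add_le_add (add_le_add b1 b2) b3
        _ = (1 / 4 + 2 * M) * R ^ 2 := by ring
    have hRρ : R * ρ = R ^ (1 / 2 + ζ) := by
      rw [hρ]
      nth_rewrite 1 [← Real.rpow_one R]
      rw [← Real.rpow_add hRp]
      congr 1
      ring
    refine ⟨?_, ?_, ?_⟩
    · unfold b0
      rw [← ha, ← hE, abs_mul, abs_of_pos hE0, abs_of_nonneg c0]
      exact mul_le_of_le_one_right hE0.le c1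
    · rw [(ABRG_d1 hcd ζ R v).fderiv, norm_smul, Real.norm_eq_abs, abs_mul, abs_of_pos (by norm_num : (0 : ℝ) < 2), ← ha]
      have hJ := ABRG_J_norm' v
      calc 2 * |ABRG_F1 ch R a (‖v‖ ^ 2)| * ‖ABRG_J d v‖ ≤ 2 * (E * ((1 / 2 + M) * R)) * ρ := by
            refine mul_le_mul (mul_le_mul_of_nonneg_left hF1 (by norm_num)) (hJ.trans hv) (norm_nonneg _) (by positivity)
        _ = (1 + 2 * M) * (R * ρ) * E := by ring
        _ ≤ R ^ ζ * (R * ρ) * E := by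
            refine mul_le_mul_of_nonneg_right (mul_le_mul_of_nonneg_right ?_ (by positivity)) hE0.le
            linarith
        _ = R ^ (1 / 2 + 2 * ζ) * E := by
            rw [hRρ, ← Real.rpow_add hRp]
            congr 2
            ring
    · rw [(ABRG_d2 hcd hcd' ζ R v).fderiv, ← ha]
      have hJ := ABRG_J_norm' v
      have t0 : ‖(2 * ABRG_F1 ch R a (‖v‖ ^ 2)) • ABRG_J d +
          ((4 * ABRG_F2 ch R a (‖v‖ ^ 2)) • ABRG_J d v).smulRight (ABRG_J d v)‖ ≤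
          2 * (E * ((1 / 2 + M) * R)) + 4 * (E * ((1 / 4 + 2 * M) * R ^ 2)) * ρ ^ 2 := by
        refine ContinuousLinearMap.opNorm_le_bound _ (by positivity) fun w => ?_
        have e1 : ((2 * ABRG_F1 ch R a (‖v‖ ^ 2)) • ABRG_J d +
            ((4 * ABRG_F2 ch R a (‖v‖ ^ 2)) • ABRG_J d v).smulRight (ABRG_J d v)) w =
            (2 * ABRG_F1 ch R a (‖v‖ ^ 2)) • ABRG_J d w + (4 * ABRG_F2 ch R a (‖v‖ ^ 2) * ABRG_J d v w) • ABRG_J d v := rfl
        rw [e1]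
        have t1 : ‖(2 * ABRG_F1 ch R a (‖v‖ ^ 2)) • ABRG_J d w‖ ≤ 2 * (E * ((1 / 2 + M) * R)) * ‖w‖ := by
          rw [norm_smul, Real.norm_eq_abs, abs_mul, abs_of_pos (by norm_num : (0 : ℝ) < 2)]
          exact mul_le_mul (mul_le_mul_of_nonneg_left hF1 (by norm_num)) (ABRG_J_norm' w) (norm_nonneg _) (by positivity)
        have t2 : ‖(4 * ABRG_F2 ch R a (‖v‖ ^ 2) * ABRG_J d v w) • ABRG_J d v‖ ≤ 4 * (E * ((1 / 4 + 2 * M) * R ^ 2)) * ρ ^ 2 * ‖w‖ := by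
          rw [norm_smul, Real.norm_eq_abs, abs_mul, abs_mul, abs_of_pos (by norm_num : (0 : ℝ) < 4)]
          have t3 : |ABRG_J d v w| ≤ ρ * ‖w‖ := by
            have t4 := (ABRG_J d v).le_opNorm w
            rw [Real.norm_eq_abs] at t4
            exact t4.trans (mul_le_mul_of_nonneg_right (hJ.trans hv) (norm_nonneg _))
          calc 4 * |ABRG_F2 ch R a (‖v‖ ^ 2)| * |ABRG_J d v w| * ‖ABRG_J d v‖ ≤
                4 * (E * ((1 / 4 + 2 * M) * R ^ 2)) * (ρ * ‖w‖) * ρ := by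
                refine mul_le_mul (mul_le_mul (mul_le_mul_of_nonneg_left hF2 (by norm_num)) t3 (abs_nonneg _) (by positivity))
                  (hJ.trans hv) (norm_nonneg _) (by positivity)
            _ = _ := by ring
        calc _ ≤ _ := norm_add_le _ _
          _ ≤ _ := add_le_add t1 t2
          _ = _ := by ring
      have hR2 : R ^ 2 * ρ ^ 2 = R ^ (1 + 2 * ζ) := by
        rw [← mul_pow, hRρ, ← Real.rpow_natCast (R ^ (1 / 2 + ζ)) 2, ← Real.rpow_mul hRp.le]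
        congr 1
        push_cast
        ring
      have hR3 : R ≤ R ^ (1 + 2 * ζ) := by
        calc R = R ^ (1 : ℝ) := (Real.rpow_one R).symm
          _ ≤ R ^ (1 + 2 * ζ) := Real.rpow_le_rpow_of_exponent_le hR1 (by linarith)
      have hX0 : 0 < R ^ (1 + 2 * ζ) := Real.rpow_pos_of_pos hRp _
      calc _ ≤ 2 * (E * ((1 / 2 + M) * R)) + 4 * (E * ((1 / 4 + 2 * M) * R ^ 2)) * ρ ^ 2 := t0
        _ = (1 + 2 * M) * R * E + (1 + 8 * M) * (R ^ 2 * ρ ^ 2) * E := by ring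
        _ ≤ (1 + 2 * M) * R ^ (1 + 2 * ζ) * E + (1 + 8 * M) * R ^ (1 + 2 * ζ) * E := by
            rw [hR2]
            refine add_le_add (mul_le_mul_of_nonneg_right (mul_le_mul_of_nonneg_left hR3 (by positivity)) hE0.le) le_rfl
        _ = (2 + 10 * M) * R ^ (1 + 2 * ζ) * E := by ring
        _ ≤ R ^ ζ * R ^ (1 + 2 * ζ) * E := by
            refine mul_le_mul_of_nonneg_right (mul_le_mul_of_nonneg_right hRz hX0.le) hE0.le
        _ = R ^ (1 + 3 * ζ) * E := by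
            rw [← Real.rpow_add hRp]
            congr 2
            ring
  · -- outside of the ball
    push Not at hv
    have hgk : gk ζ R v = 0 := by
      unfold gk
      rw [indicator_of_notMem]
      rw [Metric.mem_closedBall, dist_zero_right]
      exact not_le.2 hv
    have hev : (b0 ch ζ R : V d → ℝ) =ᶠ[𝓝 v] fun _ => 0 := by
      have h1 : ∀ᶠ w in 𝓝 v, ρ < ‖w‖ := (continuous_norm.tendsto v).eventually (lt_mem_nhds hv)
      filter_upwards [h1] with w hw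
      unfold b0
      rw [← ha, hch.zero, mul_zero]
      rw [← haρ]
      exact mul_le_mul_of_nonneg_left (pow_le_pow_left₀ hρ0.le hw.le 2) ha0.le
    have hev1 : fderiv ℝ (b0 ch ζ R : V d → ℝ) =ᶠ[𝓝 v] fun _ => 0 := by
      have h2 := hev.fderiv (𝕜 := ℝ)
      refine h2.trans (Eventually.of_forall fun w => ?_)
      simp
    rw [hgk, mul_zero, mul_zero]
    refine ⟨?_, ?_, ?_⟩
    · rw [hev.self_of_nhds, abs_zero]
    · rw [hev1.self_of_nhds, norm_zero]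
    · rw [(hev1.fderiv (𝕜 := ℝ)).self_of_nhds]
      have e2 : fderiv ℝ (fun _ : V d => (0 : V d →L[ℝ] ℝ)) v = 0 := (hasFDerivAt_const (0 : V d →L[ℝ] ℝ) v).fderiv
      rw [e2]
      refine ContinuousLinearMap.opNorm_le_bound _ le_rfl fun w => ?_
      rw [ContinuousLinearMap.zero_apply, norm_zero, zero_mul]

end

end Pool.Agent.VD
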