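import Pool.Agent.helper47.VD.SpecA1b

/-!
# Row vd:AELA (MP_07c750_an): energy localisation, first part
-/

set_option autoImplicit false

open scoped ContDiff Topology InnerProductSpace ComplexConjugate ENNReal
open MeasureTheory Filter Set

namespace Pool.Agent.VD

open Pool.Agent.VQ (CH)

noncomputable section

theorem AELA_gk_meas {d : ℕ} (ζ R : ℝ) : Measurable (gk ζ R : V d → ℝ) := by
  unfold gk
  refine Measurable.indicator ?_ Metric.isClosed_closedBall.measurableSet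
  fun_prop

theorem AELA_proof (hAEFX : AEFX_stmt) (hAUNK : AUNK_stmt) (hANCH : ANCH_stmt) (hAMYS : AMYS_stmt) (hABRE : ABRE_stmt) (hAQSB : AQSB_stmt)
    (hAFHB : AFHB_stmt) (hAFHL : AFHL_stmt) (hAMVI : AMVI_stmt) (hAHLD : AHLD_stmt) : AELA_stmt := by
  intro d Γ _ _ K k B r0 χ ch ζ hK hPU hCH hζ hζ1
  obtain ⟨C, R1, hC1, hR1, hFX⟩ := hAEFX d Γ K k B r0 χ ch ζ hK hPU hCH hζ hζ1
  obtain ⟨R2, hR2, hRE⟩ := hABRE d ch ζ hCH hζ hζ1
  obtain ⟨R3, hR3, hSB⟩ := hAQSB d Γ K k B r0 χ ch ζ hK hPU hCH hζ hζ1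
  obtain ⟨N, hN1, hN⟩ := hANCH d Γ K r0 hK
  obtain ⟨R4, hR4⟩ : ∃ R4 : ℝ, ∀ R ≥ R4, N * (2 * C) ≤ R ^ (4 * ζ) := by
    have := (tendsto_rpow_atTop (show 0 < 4 * ζ by linarith)).eventually_ge_atTop (N * (2 * C))
    exact eventually_atTop.1 this
  refine ⟨max (max (max R1 R2) (max R3 R4)) 4, ?_, fun R G hR hCl => ?_⟩
  · exact le_trans (by norm_num) (le_max_right _ _)
  have hRa : R1 ≤ R := (le_max_left _ _).trans ((le_max_left _ _).trans ((le_max_left _ _).trans hR))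
  have hRb : R2 ≤ R := (le_max_right _ _).trans ((le_max_left _ _).trans ((le_max_left _ _).trans hR))
  have hRc : R3 ≤ R := (le_max_left _ _).trans ((le_max_right _ _).trans ((le_max_left _ _).trans hR))
  have hRd : R4 ≤ R := (le_max_right _ _).trans ((le_max_right _ _).trans ((le_max_left _ _).trans hR))
  have hR4' : 4 ≤ R := (le_max_right _ _).trans hR
  have hRp : 0 < R := by linarith
  have hR1' : 1 ≤ R := by linarith
  intro Λ F T hDm φ E0 hφ hφ2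
  obtain ⟨hcnt, -, -, hsf, -, -, -, -, -⟩ := hAMVI d Γ K k B G hK hCl
  haveI := hcnt
  haveI := hsf
  obtain ⟨m1, m2, m3, m4, m5, m6⟩ := hAMYS d Γ
  obtain ⟨hFP, hQc⟩ := hSB R G hRc hCl Λ F T hDm φ hφ
  obtain ⟨hb1, hb2, hb3, hb4, hb5, hb6, hb7, hb8, hb9⟩ := hRE R hRb
  obtain ⟨CH', hCH', hH⟩ := hAHLD d Γ K k B 0 0
  obtain ⟨-, -, hIG, -, -⟩ := hH G hK hCl
  -- continuity of the energy
  have hEp : Continuous (Ep G) := by
    have h1 : Continuous fun p : P d => ⟪IG G p.1 p.2, p.2⟫_ℝ := by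
      have h2 : Continuous fun p : P d => IG G p.1 := hIG.continuous.comp continuous_fst
      exact (h2.clm_apply continuous_snd).inner continuous_snd
    show Continuous fun p : P d => ⟪IG G p.1 p.2, p.2⟫_ℝ / 2 - 1 / 2
    exact (h1.div_const 2).sub continuous_const
  -- the functions
  set ψ : V d → ℂ := fun z => lap G φ z + ((R ^ 2 * (1 + 2 * E0) : ℝ) : ℂ) * φ z with hψdef
  have hψ : FH Λ F ψ := by
    have h1 := hAFHL d Γ K k B G hK hCl Λ F T hDm φ hφ hφ2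
    have h2 := (hAFHB d Γ K k B G hK hCl Λ F T hDm).2.1 1 ((R ^ 2 * (1 + 2 * E0) : ℝ) : ℂ) _ _ h1 hφ
    simp only [one_mul] at h2
    exact h2
  obtain ⟨hfh, -, -⟩ := hAFHB d Γ K k B G hK hCl Λ F T hDm
  obtain ⟨-, -, -, -, hnnφ, hIφ⟩ := hfh φ hφ
  obtain ⟨-, -, -, -, hnnψ, hIψ⟩ := hfh ψ hψ
  set f : V d → ENNReal := fun z => ENNReal.ofReal (R ^ (-4 : ℝ)) * ‖ψ z‖ₑ ^ 2 + ENNReal.ofReal (R ^ (-1 + 4 * ζ)) * ‖φ z‖ₑ ^ 2 with hf
  have hfm : Measurable f := by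
    have g1 : Measurable fun z : V d => ‖ψ z‖ₑ ^ 2 := (hψ.cont.measurable.enorm).pow_const 2
    have g2 : Measurable fun z : V d => ‖φ z‖ₑ ^ 2 := (hφ.cont.measurable.enorm).pow_const 2
    exact (g1.const_mul _).add (g2.const_mul _)
  set c : V d → ENNReal := fun x => ENNReal.ofReal (C * (χ x ^ 2 * (bR d ch ζ R)⁻¹)) with hc
  have hcm : Measurable c := by
    refine ENNReal.measurable_ofReal.comp ?_
    have := hPU.smooth.continuous.measurable
    fun_prop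
  set k0 : V d → ENNReal := fun v => ENNReal.ofReal (gk ζ R v ^ 2) with hk0
  have hk0m : Measurable k0 := ENNReal.measurable_ofReal.comp ((AELA_gk_meas ζ R).pow_const 2)
  have hfinv : ∀ κ ∈ Λ, ∀ z : V d, f (κ • z) = f z := by
    intro κ hκ z
    show ENNReal.ofReal (R ^ (-4 : ℝ)) * ‖ψ (κ • z)‖ₑ ^ 2 + ENNReal.ofReal (R ^ (-1 + 4 * ζ)) * ‖φ (κ • z)‖ₑ ^ 2 = _
    rw [hψ.inv κ hκ z, hφ.inv κ hκ z]
  have hgm : Measurable fun y : YS Γ d => ENNReal.ofReal ((Ep G y.2 - E0) ^ 2 / (1 + ‖y.2.2‖ ^ 2) ^ 2) * ‖QF G χ ch ζ R φ y‖ₑ ^ 2 := by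
    refine Measurable.mul ?_ ((hFP.meas.enorm).pow_const 2)
    refine m1 _ _ fun γ => ?_
    show Measurable fun p : P d => ENNReal.ofReal ((Ep G p - E0) ^ 2 / (1 + ‖p.2‖ ^ 2) ^ 2)
    refine ENNReal.measurable_ofReal.comp ?_
    have := hEp.measurable
    fun_prop
  rw [m5 T _ hgm]
  have hstep1 : ∑' γ : T, ∫⁻ x : V d, ∫⁻ ξ : V d, ENNReal.ofReal ((Ep G (x, ξ) - E0) ^ 2 / (1 + ‖ξ‖ ^ 2) ^ 2) *
      ‖QF G χ ch ζ R φ (((γ : Γ), (x, ξ)) : YS Γ d)‖ₑ ^ 2 ≤ ∑' γ : T, ∫⁻ x : V d, c x * ∫⁻ w, k0 (w - x) * f ((γ : Γ) • w) ∂mv G := by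
    refine ENNReal.tsum_le_tsum fun γ => lintegral_mono fun x => ?_
    exact hFX R G hRa hCl φ E0 γ x hφ2
  refine hstep1.trans ?_
  rw [hAUNK d Γ K k B G hK hCl Λ F T hDm c k0 f hcm hk0m hfm hfinv]
  -- the weight
  have hpi : 0 < (Real.pi / R) ^ ((d : ℝ) / 2) := Real.rpow_pos_of_pos (by positivity) _
  have hhalf : R ^ (-(1 / 2) : ℝ) ≤ 1 / 2 := by
    rw [Real.rpow_neg hRp.le, ← Real.sqrt_eq_rpow, one_div]
    refine inv_anti₀ (by norm_num) ?_
    refine Real.le_sqrt_of_sq_le ?_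
    linarith
  have hbR : (Real.pi / R) ^ ((d : ℝ) / 2) ≤ 2 * bR d ch ζ R := by nlinarith
  have hbRp : 0 < bR d ch ζ R := by nlinarith
  have hM : ∀ w : V d, ∫⁻ x : V d, c x * k0 (w - x) ≤ ENNReal.ofReal (2 * C) := by
    intro w
    have h1 : ∀ x : V d, c x * k0 (w - x) ≤ ENNReal.ofReal (C * (bR d ch ζ R)⁻¹) * k0 (w - x) := by
      intro x
      refine mul_le_mul_left (ENNReal.ofReal_le_ofReal ?_) _
      refine mul_le_mul_of_nonneg_left ?_ (by linarith)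
      have h2 : χ x ^ 2 ≤ 1 := pow_le_one₀ (hPU.bd x).1 (hPU.bd x).2
      exact mul_le_of_le_one_left (by positivity) h2
    refine (lintegral_mono h1).trans ?_
    have hk0m' : Measurable fun x : V d => k0 (w - x) := hk0m.comp (measurable_const.sub measurable_id)
    rw [lintegral_const_mul _ hk0m']
    have h3 : ∫⁻ x : V d, k0 (w - x) = ∫⁻ x : V d, k0 x := lintegral_sub_left_eq_self (μ := volume) k0 w
    rw [h3]
    have h4 : ∫⁻ x : V d, k0 x = ENNReal.ofReal (∫ v : V d, gk ζ R v ^ 2) := by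
      rw [ofReal_integral_eq_lintegral_ofReal hb8]
      exact Eventually.of_forall fun v => sq_nonneg _
    rw [h4, ← ENNReal.ofReal_mul (by positivity)]
    apply ENNReal.ofReal_le_ofReal
    calc C * (bR d ch ζ R)⁻¹ * ∫ v : V d, gk ζ R v ^ 2 ≤ C * (bR d ch ζ R)⁻¹ * (Real.pi / R) ^ ((d : ℝ) / 2) :=
          mul_le_mul_of_nonneg_left hb9 (by positivity)
      _ ≤ C * (bR d ch ζ R)⁻¹ * (2 * bR d ch ζ R) := mul_le_mul_of_nonneg_left hbR (by positivity)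
      _ = 2 * C := by field_simp
  have hM0 : ∀ w : V d, (∫⁻ x : V d, c x * k0 (w - x)) ≠ 0 → ‖w‖ ≤ r0 := by
    intro w hw
    by_contra hcon
    push Not at hcon
    apply hw
    have h0 : ∀ x : V d, c x * k0 (w - x) = 0 := by
      intro x
      by_cases hx : χ x = 0
      · show ENNReal.ofReal (C * (χ x ^ 2 * (bR d ch ζ R)⁻¹)) * _ = 0
        rw [hx]
        simp
      · have h1 := hPU.supp x hx
        have h2 : R ^ (-(1 / 2) + ζ) ≤ 1 := Real.rpow_le_one_of_one_le_of_nonpos hR1' (by linarith)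
        have h3 : w - x ∉ Metric.closedBall (0 : V d) (R ^ (-(1 / 2) + ζ)) := by
          intro h4
          rw [Metric.mem_closedBall, dist_zero_right] at h4
          have h5 : ‖w‖ ≤ ‖w - x‖ + ‖x‖ := by
            have := norm_add_le (w - x) x
            rwa [sub_add_cancel] at this
          linarith
        show _ * ENNReal.ofReal (gk ζ R (w - x) ^ 2) = 0
        unfold gk
        rw [indicator_of_notMem h3]
        simp
    rw [lintegral_congr h0, lintegral_zero]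
  have hsum : ∀ z : V d, ∑' γ : Γ, ∫⁻ x : V d, c x * k0 (γ⁻¹ • z - x) ≤ N * ENNReal.ofReal (2 * C) := fun z =>
    (hN z).2.2 (fun w => ∫⁻ x : V d, c x * k0 (w - x)) _ hM0 hM
  have hint : ∫⁻ z in F, f z ∂mv G = ENNReal.ofReal (R ^ (-4 : ℝ) * nn G F ψ + R ^ (-1 + 4 * ζ) * nn G F φ) := by
    have h1 : Measurable fun z : V d => ENNReal.ofReal (R ^ (-4 : ℝ)) * ‖ψ z‖ₑ ^ 2 := ((hψ.cont.measurable.enorm).pow_const 2).const_mul _
    have h2 : Measurable fun z : V d => ‖ψ z‖ₑ ^ 2 := (hψ.cont.measurable.enorm).pow_const 2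
    have h3 : Measurable fun z : V d => ‖φ z‖ₑ ^ 2 := (hφ.cont.measurable.enorm).pow_const 2
    show ∫⁻ z in F, (ENNReal.ofReal (R ^ (-4 : ℝ)) * ‖ψ z‖ₑ ^ 2 + ENNReal.ofReal (R ^ (-1 + 4 * ζ)) * ‖φ z‖ₑ ^ 2) ∂mv G = _
    rw [lintegral_add_left h1, lintegral_const_mul _ h2, lintegral_const_mul _ h3, hIφ, hIψ, ← ENNReal.ofReal_mul (by positivity),
      ← ENNReal.ofReal_mul (by positivity), ← ENNReal.ofReal_add (by positivity) (by positivity)]
  calc ∫⁻ z in F, (∑' γ : Γ, ∫⁻ x : V d, c x * k0 (γ⁻¹ • z - x)) * f z ∂mv G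
      ≤ ∫⁻ z in F, (N * ENNReal.ofReal (2 * C)) * f z ∂mv G := lintegral_mono fun z => mul_le_mul_left (hsum z) _
    _ = ENNReal.ofReal (N * (2 * C)) * ENNReal.ofReal (R ^ (-4 : ℝ) * nn G F ψ + R ^ (-1 + 4 * ζ) * nn G F φ) := by
        rw [lintegral_const_mul _ hfm, hint, ENNReal.ofReal_mul (Nat.cast_nonneg N), ENNReal.ofReal_natCast]
    _ ≤ ENNReal.ofReal (R ^ (8 * ζ) * (R ^ (-4 : ℝ) * nn G F ψ + R ^ (-1 : ℝ) * nn G F φ)) := by
        rw [← ENNReal.ofReal_mul (by positivity)]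
        apply ENNReal.ofReal_le_ofReal
        have hR4'' := hR4 R hRd
        have e1 : R ^ (8 * ζ) = R ^ (4 * ζ) * R ^ (4 * ζ) := by
          rw [← Real.rpow_add hRp]
          congr 1
          ring
        have e2 : R ^ (-1 + 4 * ζ) = R ^ (-1 : ℝ) * R ^ (4 * ζ) := Real.rpow_add hRp _ _
        have e3 : 1 ≤ R ^ (4 * ζ) := Real.one_le_rpow hR1' (by linarith)
        have p4 : 0 ≤ R ^ (-4 : ℝ) := by positivity
        have p1 : 0 ≤ R ^ (-1 : ℝ) := by positivity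
        have pz : 0 ≤ R ^ (4 * ζ) := by positivity
        calc N * (2 * C) * (R ^ (-4 : ℝ) * nn G F ψ + R ^ (-1 + 4 * ζ) * nn G F φ)
            ≤ R ^ (4 * ζ) * (R ^ (-4 : ℝ) * nn G F ψ + R ^ (-1 + 4 * ζ) * nn G F φ) :=
              mul_le_mul_of_nonneg_right hR4'' (by positivity)
          _ ≤ R ^ (4 * ζ) * (R ^ (4 * ζ) * (R ^ (-4 : ℝ) * nn G F ψ) + R ^ (-1 + 4 * ζ) * nn G F φ) := by
              refine mul_le_mul_of_nonneg_left (add_le_add ?_ le_rfl) pz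
              exact le_mul_of_one_le_left (by positivity) e3
          _ = R ^ (8 * ζ) * (R ^ (-4 : ℝ) * nn G F ψ + R ^ (-1 : ℝ) * nn G F φ) := by
              rw [e1, e2]
              ring

end

end Pool.Agent.VD
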