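import Pool.Agent.helper47.VD.SpecA1

/-!
# Row vd:AEXL (MP_07c750_an): the product of an amplitude and a plane wave
-/

set_option autoImplicit false

open scoped ContDiff Topology InnerProductSpace ComplexConjugate ENNReal
open MeasureTheory Filter Set

namespace Pool.Agent.VD

open Pool.Agent.VQ (CH)

noncomputable section

/-- a vector is the sum of its coordinates -/
theorem AEXL_sum {d : ℕ} (x : V d) : ∑ i : Fin d, x i • (EuclideanSpace.single i (1 : ℝ) : V d) = x := by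
  ext j
  simp [Finset.sum_apply, Pi.single_apply]

theorem AEXL_inner {d : ℕ} (x : V d) (i : Fin d) : ⟪x, (EuclideanSpace.single i (1 : ℝ) : V d)⟫_ℝ = x i := by
  rw [EuclideanSpace.inner_single_right]
  simp

theorem AEXL_lin {d : ℕ} {E : Type} [NormedAddCommGroup E] [NormedSpace ℝ E] (L : V d →L[ℝ] E) (x : V d) :
    ∑ i : Fin d, x i • L (EuclideanSpace.single i (1 : ℝ)) = L x := by
  conv_rhs => rw [← AEXL_sum x]
  rw [map_sum]
  refine Finset.sum_congr rfl fun i _ => ?_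
  rw [map_smul]

theorem AEXL_e {d : ℕ} (R : ℝ) (ξ x : V d) :
    HasFDerivAt (fun w : V d => Complex.exp (-(((R * ⟪ξ, w⟫_ℝ : ℝ) : ℂ) * Complex.I)))
      (Complex.exp (-(((R * ⟪ξ, x⟫_ℝ : ℝ) : ℂ) * Complex.I)) •
        (-((Complex.ofRealCLM.comp (R • innerSL ℝ ξ)).smulRight Complex.I))) x := by
  have h1 : HasFDerivAt (fun w : V d => ((R * ⟪ξ, w⟫_ℝ : ℝ) : ℂ)) (Complex.ofRealCLM.comp (R • innerSL ℝ ξ)) x := by
    have h2 := (Complex.ofRealCLM.comp (R • innerSL ℝ ξ)).hasFDerivAt (x := x)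
    exact h2
  exact ((h1.mul_const' Complex.I).neg).cexp

theorem AEXL_f {d : ℕ} {b : V d → ℝ} {R : ℝ} {ξ : V d} (hb : ContDiff ℝ 2 b) (y v : V d) :
    fderiv ℝ (fun w => ((b w : ℝ) : ℂ) * Complex.exp (-(((R * ⟪ξ, w⟫_ℝ : ℝ) : ℂ) * Complex.I))) y v =
      (((fderiv ℝ b y v : ℝ) : ℂ) - Complex.I * ((R * (b y * ⟪ξ, v⟫_ℝ) : ℝ) : ℂ)) *
        Complex.exp (-(((R * ⟪ξ, y⟫_ℝ : ℝ) : ℂ) * Complex.I)) := by
  have h1 : HasFDerivAt (fun w : V d => ((b w : ℝ) : ℂ)) (Complex.ofRealCLM.comp (fderiv ℝ b y)) y :=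
    Complex.ofRealCLM.hasFDerivAt.comp y ((hb.differentiable (by norm_num)) y).hasFDerivAt
  have h2 := h1.fun_mul (AEXL_e R ξ y)
  rw [h2.fderiv]
  simp only [ContinuousLinearMap.add_apply, ContinuousLinearMap.smul_apply, ContinuousLinearMap.neg_apply,
    ContinuousLinearMap.smulRight_apply, ContinuousLinearMap.comp_apply, Complex.ofRealCLM_apply, innerSL_apply_apply, smul_eq_mul]
  push_cast
  ring

theorem AEXL_proof : AEXL_stmt := by
  intro d h b R ξ x hh hsym hb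
  have hbd : Differentiable ℝ b := hb.differentiable (by norm_num)
  have hb1 : ContDiff ℝ 1 (fderiv ℝ b) := hb.fderiv_right (by norm_num)
  have hhd : Differentiable ℝ h := hh.differentiable (by norm_num)
  -- the derivative of the inner function in direction `e_i`
  have key : ∀ i : Fin d, fderiv ℝ (fun y => fderiv ℝ (fun w => ((b w : ℝ) : ℂ) *
      Complex.exp (-(((R * ⟪ξ, w⟫_ℝ : ℝ) : ℂ) * Complex.I))) y (h y (EuclideanSpace.single i 1))) x (EuclideanSpace.single i 1) =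
      ((((fderiv ℝ (fun y => fderiv ℝ b y (h y (EuclideanSpace.single i 1))) x (EuclideanSpace.single i 1) -
          R ^ 2 * (b x * (ξ i * ⟪ξ, h x (EuclideanSpace.single i 1)⟫_ℝ)) : ℝ)) : ℂ) -
        Complex.I * ((R * (ξ i * fderiv ℝ b x (h x (EuclideanSpace.single i 1)) +
          fderiv ℝ b x (EuclideanSpace.single i 1) * ⟪ξ, h x (EuclideanSpace.single i 1)⟫_ℝ +
          b x * ⟪ξ, fderiv ℝ h x (EuclideanSpace.single i 1) (EuclideanSpace.single i 1)⟫_ℝ) : ℝ) : ℂ)) *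
        Complex.exp (-(((R * ⟪ξ, x⟫_ℝ : ℝ) : ℂ) * Complex.I)) := by
    intro i
    set e : V d := EuclideanSpace.single i 1 with he
    have e1 : (fun y => fderiv ℝ (fun w => ((b w : ℝ) : ℂ) * Complex.exp (-(((R * ⟪ξ, w⟫_ℝ : ℝ) : ℂ) * Complex.I))) y (h y e)) =
        fun y => (((fderiv ℝ b y (h y e) : ℝ) : ℂ) - Complex.I * ((R * (b y * ⟪ξ, h y e⟫_ℝ) : ℝ) : ℂ)) *
          Complex.exp (-(((R * ⟪ξ, y⟫_ℝ : ℝ) : ℂ) * Complex.I)) := by
      funext y
      exact AEXL_f hb y (h y e)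
    rw [e1]
    have hhe : HasFDerivAt (fun y => h y e) ((ContinuousLinearMap.apply ℝ (V d) e).comp (fderiv ℝ h x)) x :=
      (ContinuousLinearMap.apply ℝ (V d) e).hasFDerivAt.comp x (hhd x).hasFDerivAt
    have hg : DifferentiableAt ℝ (fun y => fderiv ℝ b y (h y e)) x :=
      ((hb1.differentiable (by norm_num)) x).clm_apply hhe.differentiableAt
    have h1 : HasFDerivAt (fun y => ((fderiv ℝ b y (h y e) : ℝ) : ℂ))
        (Complex.ofRealCLM.comp (fderiv ℝ (fun y => fderiv ℝ b y (h y e)) x)) x :=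
      Complex.ofRealCLM.hasFDerivAt.comp x hg.hasFDerivAt
    have h2 : HasFDerivAt (fun y => ⟪ξ, h y e⟫_ℝ) ((innerSL ℝ ξ).comp ((ContinuousLinearMap.apply ℝ (V d) e).comp (fderiv ℝ h x))) x :=
      (innerSL ℝ ξ).hasFDerivAt.comp x hhe
    have h3 := ((hbd x).hasFDerivAt.fun_mul h2).const_mul R
    have h4 := Complex.ofRealCLM.hasFDerivAt.comp x h3
    have h5 : HasFDerivAt (fun y => ((R * (b y * ⟪ξ, h y e⟫_ℝ) : ℝ) : ℂ)) _ x := h4
    have h6 := h5.const_mul Complex.I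
    have h7 := (h1.fun_sub h6).fun_mul (AEXL_e R ξ x)
    rw [h7.fderiv]
    have hxi : ⟪ξ, e⟫_ℝ = ξ i := AEXL_inner ξ i
    simp only [ContinuousLinearMap.add_apply, ContinuousLinearMap.smul_apply, ContinuousLinearMap.neg_apply,
      ContinuousLinearMap.sub_apply, ContinuousLinearMap.apply_apply,
      ContinuousLinearMap.smulRight_apply, ContinuousLinearMap.comp_apply, Complex.ofRealCLM_apply, innerSL_apply_apply, smul_eq_mul,
      Pi.sub_apply, hxi]
    push_cast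
    have hI : Complex.I ^ 2 = -1 := Complex.I_sq
    linear_combination (-(R : ℂ) ^ 2 * (b x : ℂ) * (ξ i : ℂ) * ((⟪ξ, h x e⟫_ℝ : ℝ) : ℂ) * Complex.exp (-((R : ℂ) * ((⟪ξ, x⟫_ℝ : ℝ) : ℂ) * Complex.I))) * (-hI)
  unfold LHO
  rw [Finset.sum_congr rfl fun i _ => key i, ← Finset.sum_mul, Finset.sum_sub_distrib, ← Complex.ofReal_sum, ← Finset.mul_sum,
    ← Complex.ofReal_sum]
  have s1 : ∑ i : Fin d, ξ i * ⟪ξ, h x (EuclideanSpace.single i 1)⟫_ℝ = ⟪h x ξ, ξ⟫_ℝ := by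
    have := AEXL_lin ((innerSL ℝ ξ).comp (h x)) ξ
    simp only [ContinuousLinearMap.comp_apply, innerSL_apply_apply, smul_eq_mul] at this
    rw [this, real_inner_comm]
  have s2 : ∑ i : Fin d, ξ i * fderiv ℝ b x (h x (EuclideanSpace.single i 1)) = fderiv ℝ b x (h x ξ) := by
    have := AEXL_lin ((fderiv ℝ b x).comp (h x)) ξ
    simp only [ContinuousLinearMap.comp_apply, smul_eq_mul] at this
    exact this
  have s3 : ∑ i : Fin d, fderiv ℝ b x (EuclideanSpace.single i 1) * ⟪ξ, h x (EuclideanSpace.single i 1)⟫_ℝ = fderiv ℝ b x (h x ξ) := by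
    have := AEXL_lin (fderiv ℝ b x) (h x ξ)
    rw [← this]
    refine Finset.sum_congr rfl fun i _ => ?_
    rw [← hsym x ξ, AEXL_inner, smul_eq_mul, mul_comm]
  congr 1
  congr 1
  · congr 1
    rw [Finset.sum_sub_distrib, ← Finset.mul_sum, ← Finset.mul_sum, s1]
  · congr 2
    rw [← Finset.mul_sum, Finset.sum_add_distrib, Finset.sum_add_distrib, s2, s3, ← Finset.mul_sum]
    unfold dvh
    ring

end

end Pool.Agent.VD
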