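import Pool.Agent.helper47.VD.SpecA1

/-!
# Row vd:AGRW (MP_07c750_an): Green's formula in flat space
-/

set_option autoImplicit false

open scoped ContDiff Topology InnerProductSpace ComplexConjugate ENNReal
open MeasureTheory Filter Set

namespace Pool.Agent.VD

open Pool.Agent.VQ (CH)

noncomputable section

theorem AGRW_sum {d : ℕ} (x : V d) : ∑ i : Fin d, x i • (EuclideanSpace.single i (1 : ℝ) : V d) = x := by
  ext j
  simp [Finset.sum_apply, Pi.single_apply]

theorem AGRW_lin {d : ℕ} {E : Type} [NormedAddCommGroup E] [NormedSpace ℝ E] (L : V d →L[ℝ] E) (x : V d) :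
    L x = ∑ i : Fin d, x i • L (EuclideanSpace.single i (1 : ℝ)) := by
  conv_lhs => rw [← AGRW_sum x]
  rw [map_sum]
  refine Finset.sum_congr rfl fun i _ => ?_
  rw [map_smul]

theorem AGRW_swap {d : ℕ} {H : V d →L[ℝ] V d} (hH : ∀ v w : V d, ⟪H v, w⟫_ℝ = ⟪v, H w⟫_ℝ) (A B : V d →L[ℝ] ℂ) :
    ∑ i : Fin d, A (H (EuclideanSpace.single i 1)) * B (EuclideanSpace.single i 1) =
      ∑ i : Fin d, B (H (EuclideanSpace.single i 1)) * A (EuclideanSpace.single i 1) := by
  have e : ∀ (A B : V d →L[ℝ] ℂ), ∑ i : Fin d, A (H (EuclideanSpace.single i 1)) * B (EuclideanSpace.single i 1) =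
      ∑ i : Fin d, ∑ j : Fin d, ((H (EuclideanSpace.single i 1)) j : ℂ) * (A (EuclideanSpace.single j 1) * B (EuclideanSpace.single i 1)) := by
    intro A B
    refine Finset.sum_congr rfl fun i _ => ?_
    rw [AGRW_lin A, Finset.sum_mul]
    refine Finset.sum_congr rfl fun j _ => ?_
    rw [Complex.real_smul, mul_assoc]
  rw [e A B, e B A, Finset.sum_comm]
  refine Finset.sum_congr rfl fun i _ => Finset.sum_congr rfl fun j _ => ?_
  have h1 : (H (EuclideanSpace.single i (1 : ℝ))) j = (H (EuclideanSpace.single j (1 : ℝ))) i := by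
    have h2 := hH (EuclideanSpace.single i (1 : ℝ)) (EuclideanSpace.single j (1 : ℝ))
    rw [EuclideanSpace.inner_single_right, EuclideanSpace.inner_single_left] at h2
    simpa using h2
  rw [h1, mul_comm (B _) (A _)]

/-- one integration by parts -/
theorem AGRW_ibp {d : ℕ} {g f : V d → ℂ} (hg : ContDiff ℝ 1 g) (hf : ContDiff ℝ 1 f)
    (hc : HasCompactSupport f) (v : V d) :
    ∫ x, fderiv ℝ g x v * f x = -∫ x, g x * fderiv ℝ f x v := by
  have hg1 : Continuous fun x => fderiv ℝ g x v := (hg.continuous_fderiv (by norm_num)).clm_apply continuous_const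
  have hf1 : Continuous fun x => fderiv ℝ f x v := (hf.continuous_fderiv (by norm_num)).clm_apply continuous_const
  have hc1 : HasCompactSupport fun x => fderiv ℝ f x v := hc.fderiv_apply (𝕜 := ℝ) v
  have i1 : Integrable (fun x => fderiv ℝ g x v * f x) := (hg1.mul hf.continuous).integrable_of_hasCompactSupport hc.mul_left
  have i2 : Integrable (fun x => g x * fderiv ℝ f x v) := (hg.continuous.mul hf1).integrable_of_hasCompactSupport hc1.mul_left
  have i3 : Integrable (fun x => g x * f x) := (hg.continuous.mul hf.continuous).integrable_of_hasCompactSupport hc.mul_left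
  have h := integral_mul_fderiv_eq_neg_fderiv_mul_of_integrable i1 i2 i3 (fun x _ => hg.differentiable (by norm_num) x)
    (fun x _ => hf.differentiable (by norm_num) x)
  rw [h, neg_neg]

/-- one integration by parts, the other factor has compact support -/
theorem AGRW_ibp' {d : ℕ} {g f : V d → ℂ} (hg : ContDiff ℝ 1 g) (hf : ContDiff ℝ 1 f)
    (hc : HasCompactSupport g) (v : V d) :
    ∫ x, g x * fderiv ℝ f x v = -∫ x, fderiv ℝ g x v * f x := by
  have h := AGRW_ibp hf hg hc v
  have e1 : ∫ x, g x * fderiv ℝ f x v = ∫ x, fderiv ℝ f x v * g x := integral_congr_ae (Eventually.of_forall fun x => mul_comm _ _)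
  have e2 : ∫ x, fderiv ℝ g x v * f x = ∫ x, f x * fderiv ℝ g x v := integral_congr_ae (Eventually.of_forall fun x => mul_comm _ _)
  rw [e1, e2, h]

theorem AGRW_proof : AGRW_stmt := by
  intro d h u f hh hsym hu hf hc
  have hu1 : ContDiff ℝ 1 (fderiv ℝ u) := hu.fderiv_right (by norm_num)
  have hf1 : ContDiff ℝ 1 (fderiv ℝ f) := hf.fderiv_right (by norm_num)
  have hhe : ∀ i : Fin d, ContDiff ℝ 1 fun y => h y (EuclideanSpace.single i 1) := fun i =>
    (hh.of_le (by simp)).clm_apply contDiff_const
  have hg : ∀ i : Fin d, ContDiff ℝ 1 fun y => fderiv ℝ u y (h y (EuclideanSpace.single i 1)) := fun i => hu1.clm_apply (hhe i)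
  have hk : ∀ i : Fin d, ContDiff ℝ 1 fun y => fderiv ℝ f y (h y (EuclideanSpace.single i 1)) := fun i => hf1.clm_apply (hhe i)
  have hkc : ∀ i : Fin d, HasCompactSupport fun y => fderiv ℝ f y (h y (EuclideanSpace.single i 1)) := by
    intro i
    refine (hc.fderiv (𝕜 := ℝ)).mono fun y hy h0 => hy ?_
    show fderiv ℝ f y (h y (EuclideanSpace.single i 1)) = 0
    rw [h0, ContinuousLinearMap.zero_apply]
  have hgd : ∀ i : Fin d, Continuous fun x => fderiv ℝ (fun y => fderiv ℝ u y (h y (EuclideanSpace.single i 1))) x (EuclideanSpace.single i 1) :=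
    fun i => ((hg i).continuous_fderiv (by norm_num)).clm_apply continuous_const
  have hkd : ∀ i : Fin d, Continuous fun x => fderiv ℝ (fun y => fderiv ℝ f y (h y (EuclideanSpace.single i 1))) x (EuclideanSpace.single i 1) :=
    fun i => ((hk i).continuous_fderiv (by norm_num)).clm_apply continuous_const
  have hkdc : ∀ i : Fin d, HasCompactSupport fun x => fderiv ℝ (fun y => fderiv ℝ f y (h y (EuclideanSpace.single i 1))) x (EuclideanSpace.single i 1) :=
    fun i => (hkc i).fderiv_apply (𝕜 := ℝ) _
  have hfe : ∀ i : Fin d, Continuous fun x => fderiv ℝ f x (EuclideanSpace.single i 1) :=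
    fun i => (hf1.continuous).clm_apply continuous_const
  have hue : ∀ i : Fin d, Continuous fun x => fderiv ℝ u x (EuclideanSpace.single i 1) :=
    fun i => (hu1.continuous).clm_apply continuous_const
  have hfec : ∀ i : Fin d, HasCompactSupport fun x => fderiv ℝ f x (EuclideanSpace.single i 1) :=
    fun i => hc.fderiv_apply (𝕜 := ℝ) _
  calc ∫ x, LHO h u x * f x
      = ∑ i : Fin d, ∫ x, fderiv ℝ (fun y => fderiv ℝ u y (h y (EuclideanSpace.single i 1))) x (EuclideanSpace.single i 1) * f x := by
        rw [← integral_finset_sum]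
        · refine integral_congr_ae (Eventually.of_forall fun x => ?_)
          show LHO h u x * f x = _
          unfold LHO
          rw [Finset.sum_mul]
        · intro i _
          exact ((hgd i).mul hf.continuous).integrable_of_hasCompactSupport hc.mul_left
    _ = ∑ i : Fin d, -∫ x, fderiv ℝ u x (h x (EuclideanSpace.single i 1)) * fderiv ℝ f x (EuclideanSpace.single i 1) :=
        Finset.sum_congr rfl fun i _ => AGRW_ibp (hg i) (hf.of_le (by norm_num)) hc _
    _ = ∑ i : Fin d, -∫ x, fderiv ℝ f x (h x (EuclideanSpace.single i 1)) * fderiv ℝ u x (EuclideanSpace.single i 1) := by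
        rw [Finset.sum_neg_distrib, Finset.sum_neg_distrib, ← integral_finset_sum, ← integral_finset_sum]
        · congr 1
          refine integral_congr_ae (Eventually.of_forall fun x => ?_)
          exact AGRW_swap (hsym x) (fderiv ℝ u x) (fderiv ℝ f x)
        · intro i _
          exact ((hk i).continuous.mul (hue i)).integrable_of_hasCompactSupport (hkc i).mul_right
        · intro i _
          exact ((hg i).continuous.mul (hfe i)).integrable_of_hasCompactSupport (hfec i).mul_left
    _ = ∑ i : Fin d, ∫ x, fderiv ℝ (fun y => fderiv ℝ f y (h y (EuclideanSpace.single i 1))) x (EuclideanSpace.single i 1) * u x := by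
        refine Finset.sum_congr rfl fun i _ => ?_
        rw [AGRW_ibp' (hk i) (hu.of_le (by norm_num)) (hkc i), neg_neg]
    _ = ∫ x, u x * LHO h f x := by
        rw [← integral_finset_sum]
        · refine integral_congr_ae (Eventually.of_forall fun x => ?_)
          show _ = u x * LHO h f x
          unfold LHO
          rw [Finset.mul_sum]
          exact Finset.sum_congr rfl fun i _ => mul_comm _ _
        · intro i _
          exact ((hkd i).mul hu.continuous).integrable_of_hasCompactSupport (hkdc i).mul_right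

end

end Pool.Agent.VD
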