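import Pool.Agent.helper47.VD.SpecA1b

/-!
# Row vd:APOL (MP_07c750_an): polarisation of the near isometry
-/

set_option autoImplicit false

open scoped ContDiff Topology InnerProductSpace ComplexConjugate ENNReal
open MeasureTheory Filter Set

namespace Pool.Agent.VD

open Pool.Agent.VQ (CH)

noncomputable section

/-- polarisation for two pairs of vectors -/
theorem APOL_abs {H H' : Type} [NormedAddCommGroup H] [InnerProductSpace ℂ H] [NormedAddCommGroup H'] [InnerProductSpace ℂ H']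
    (x y : H) (x' y' : H') (ε : ℝ) (hε : 0 ≤ ε) (h : ∀ a b : ℂ, |‖a • x + b • y‖ ^ 2 - ‖a • x' + b • y'‖ ^ 2| ≤ ε * ‖a • x' + b • y'‖ ^ 2) :
    ‖(⟪x, y⟫_ℂ - ⟪x', y'⟫_ℂ : ℂ)‖ ≤ ε * (‖x'‖ * ‖y'‖) := by
  set D : ℂ := ⟪x, y⟫_ℂ - ⟪x', y'⟫_ℂ with hD
  -- a unit number
  obtain ⟨c, hc1, hc2⟩ : ∃ c : ℂ, ‖c‖ = 1 ∧ c * D = ((‖D‖ : ℝ) : ℂ) := by
    by_cases h0 : D = 0
    · exact ⟨1, norm_one, by rw [h0]; simp⟩
    · have h1 : ‖D‖ ≠ 0 := norm_ne_zero_iff.2 h0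
      have h1' : ((‖D‖ : ℝ) : ℂ) ≠ 0 := by exact_mod_cast h1
      refine ⟨(starRingEnd ℂ) D / ((‖D‖ : ℝ) : ℂ), ?_, ?_⟩
      · rw [norm_div, RCLike.norm_conj, Complex.norm_real, norm_norm, div_self h1]
      · rw [div_mul_eq_mul_div, Complex.conj_mul', pow_two, mul_div_assoc, div_self h1', mul_one]
  have key : ∀ t : ℝ, 0 < t → ‖D‖ ≤ ε / 2 * (t ^ 2 * ‖x'‖ ^ 2 + (t⁻¹) ^ 2 * ‖y'‖ ^ 2) := by
    intro t ht
    have hp : ∀ {E : Type} [NormedAddCommGroup E] [InnerProductSpace ℂ E] (u v : E),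
        4 * (⟪u, v⟫_ℂ).re = ‖u + v‖ ^ 2 - ‖u - v‖ ^ 2 := by
      intro E _ _ u v
      have h1 := @norm_add_sq ℂ E _ _ _ u v
      have h2 := @norm_sub_sq ℂ E _ _ _ u v
      rw [h1, h2]
      simp only [RCLike.re_to_complex]
      ring
    have hq : ∀ {E : Type} [NormedAddCommGroup E] [InnerProductSpace ℂ E] (u v : E),
        ‖u + v‖ ^ 2 + ‖u - v‖ ^ 2 = 2 * (‖u‖ ^ 2 + ‖v‖ ^ 2) := by
      intro E _ _ u v
      have h1 := parallelogram_law_with_norm ℂ u v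
      nlinarith
    set a : ℂ := ((t : ℝ) : ℂ) with ha
    set b : ℂ := ((t⁻¹ : ℝ) : ℂ) * c with hb
    have hin : ∀ {E : Type} [NormedAddCommGroup E] [InnerProductSpace ℂ E] (u v : E), ⟪a • u, b • v⟫_ℂ = c * ⟪u, v⟫_ℂ := by
      intro E _ _ u v
      rw [inner_smul_left, inner_smul_right, ha, hb, Complex.conj_ofReal]
      have ht' : ((t : ℝ) : ℂ) ≠ 0 := by exact_mod_cast ht.ne'
      push_cast
      field_simp
    have e1 : ‖D‖ = (⟪a • x, b • y⟫_ℂ).re - (⟪a • x', b • y'⟫_ℂ).re := by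
      rw [hin, hin, ← Complex.sub_re, ← mul_sub, ← hD, hc2, Complex.ofReal_re]
    have e2 : 4 * ‖D‖ = (‖a • x + b • y‖ ^ 2 - ‖a • x' + b • y'‖ ^ 2) - (‖a • x - b • y‖ ^ 2 - ‖a • x' - b • y'‖ ^ 2) := by
      rw [e1, mul_sub, hp, hp]
      ring
    have b1 := h a b
    have b2 := h a (-b)
    rw [neg_smul, neg_smul, ← sub_eq_add_neg, ← sub_eq_add_neg] at b2
    have e3 := hq (a • x') (b • y')
    have n1 : ‖a • x'‖ = t * ‖x'‖ := by rw [norm_smul, ha, Complex.norm_real, Real.norm_eq_abs, abs_of_pos ht]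
    have n2 : ‖b • y'‖ = t⁻¹ * ‖y'‖ := by
      rw [norm_smul, hb, norm_mul, hc1, mul_one, Complex.norm_real, Real.norm_eq_abs, abs_of_pos (inv_pos.2 ht)]
    have h4 : 4 * ‖D‖ ≤ ε * (‖a • x' + b • y'‖ ^ 2 + ‖a • x' - b • y'‖ ^ 2) := by
      rw [e2, mul_add]
      have c1 := abs_le.1 b1
      have c2 := abs_le.1 b2
      linarith [c1.2, c2.1]
    rw [e3, n1, n2] at h4
    nlinarith [h4]
  -- optimise
  have key2 : ∀ δ : ℝ, 0 < δ → ‖D‖ ≤ ε * ((‖x'‖ + δ) * (‖y'‖ + δ)) := by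
    intro δ hδ
    have hA : 0 < ‖x'‖ + δ := by positivity
    have hB : 0 < ‖y'‖ + δ := by positivity
    have h1 := key (Real.sqrt ((‖y'‖ + δ) / (‖x'‖ + δ))) (Real.sqrt_pos.2 (div_pos hB hA))
    rw [inv_pow, Real.sq_sqrt (div_pos hB hA).le, inv_div] at h1
    refine h1.trans ?_
    have h2 : (‖y'‖ + δ) / (‖x'‖ + δ) * ‖x'‖ ^ 2 ≤ (‖x'‖ + δ) * (‖y'‖ + δ) := by
      rw [div_mul_eq_mul_div, div_le_iff₀ hA]
      have : ‖x'‖ ^ 2 ≤ (‖x'‖ + δ) ^ 2 := pow_le_pow_left₀ (norm_nonneg _) (by linarith) 2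
      nlinarith
    have h3 : (‖x'‖ + δ) / (‖y'‖ + δ) * ‖y'‖ ^ 2 ≤ (‖x'‖ + δ) * (‖y'‖ + δ) := by
      rw [div_mul_eq_mul_div, div_le_iff₀ hB]
      have : ‖y'‖ ^ 2 ≤ (‖y'‖ + δ) ^ 2 := pow_le_pow_left₀ (norm_nonneg _) (by linarith) 2
      nlinarith
    calc ε / 2 * ((‖y'‖ + δ) / (‖x'‖ + δ) * ‖x'‖ ^ 2 + (‖x'‖ + δ) / (‖y'‖ + δ) * ‖y'‖ ^ 2)
        ≤ ε / 2 * ((‖x'‖ + δ) * (‖y'‖ + δ) + (‖x'‖ + δ) * (‖y'‖ + δ)) := mul_le_mul_of_nonneg_left (add_le_add h2 h3) (by positivity)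
      _ = ε * ((‖x'‖ + δ) * (‖y'‖ + δ)) := by ring
  have hcont : Tendsto (fun δ : ℝ => ε * ((‖x'‖ + δ) * (‖y'‖ + δ))) (𝓝[>] 0) (𝓝 (ε * ((‖x'‖ + 0) * (‖y'‖ + 0)))) := by
    have : Continuous fun δ : ℝ => ε * ((‖x'‖ + δ) * (‖y'‖ + δ)) := by fun_prop
    exact (this.tendsto 0).mono_left nhdsWithin_le_nhds
  rw [add_zero, add_zero] at hcont
  refine ge_of_tendsto hcont ?_
  filter_upwards [self_mem_nhdsWithin] with δ hδ
  exact key2 δ hδ

/-- the square of the norm of a linear combination in `L^2` -/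
theorem APOL_norm {α : Type} [MeasurableSpace α] {μ : Measure α} {f g : α → ℂ} (hf : MemLp f 2 μ) (hg : MemLp g 2 μ) (a b : ℂ) :
    ‖a • hf.toLp f + b • hg.toLp g‖ ^ 2 = ∫ x, ‖a * f x + b * g x‖ ^ 2 ∂μ := by
  have h1 : a • hf.toLp f + b • hg.toLp g = ((hf.const_smul a).add (hg.const_smul b)).toLp (a • f + b • g) := by
    rw [MemLp.toLp_add (hf.const_smul a) (hg.const_smul b), MemLp.toLp_const_smul, MemLp.toLp_const_smul]
  rw [h1, ← @inner_self_eq_norm_sq ℂ, MeasureTheory.L2.inner_def]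
  have h2 : ∫ x, ⟪(((hf.const_smul a).add (hg.const_smul b)).toLp (a • f + b • g) : α → ℂ) x,
      (((hf.const_smul a).add (hg.const_smul b)).toLp (a • f + b • g) : α → ℂ) x⟫_ℂ ∂μ = ((∫ x, ‖a * f x + b * g x‖ ^ 2 ∂μ : ℝ) : ℂ) := by
    rw [← integral_complex_ofReal]
    refine integral_congr_ae ?_
    filter_upwards [((hf.const_smul a).add (hg.const_smul b)).coeFn_toLp] with x hx
    rw [hx, inner_self_eq_norm_sq_to_K]
    simp
  rw [h2]
  simp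

theorem APOL_inner {α : Type} [MeasurableSpace α] {μ : Measure α} {f g : α → ℂ} (hf : MemLp f 2 μ) (hg : MemLp g 2 μ) :
    ⟪hg.toLp g, hf.toLp f⟫_ℂ = ∫ x, f x * conj (g x) ∂μ := by
  rw [MeasureTheory.L2.inner_def]
  refine integral_congr_ae ?_
  filter_upwards [hf.coeFn_toLp, hg.coeFn_toLp] with x h1 h2
  rw [h1, h2]
  simp [RCLike.inner_apply]

theorem APOL_proof (hAISD : AISD_stmt) (hAQSB : AQSB_stmt) (hAFHB : AFHB_stmt) (hAQSN : AQSN_stmt) : APOL_stmt := by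
  intro d Γ _ _ K k B r0 χ ch ζ hK hPU hCH hζ hζ1
  obtain ⟨R1, hR1, hIS⟩ := hAISD d Γ K k B r0 χ ch ζ hK hPU hCH hζ hζ1
  obtain ⟨R2, hR2, hSB⟩ := hAQSB d Γ K k B r0 χ ch ζ hK hPU hCH hζ hζ1
  obtain ⟨R3, hR3, hSN⟩ := hAQSN d Γ K k B r0 χ ch ζ hK hPU hCH hζ hζ1
  refine ⟨max R1 (max R2 R3), le_trans hR1 (le_max_left _ _), fun R G hR hCl => ?_⟩
  have hRa : R1 ≤ R := (le_max_left _ _).trans hR
  have hRb : R2 ≤ R := (le_max_left _ _).trans ((le_max_right _ _).trans hR)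
  have hRc : R3 ≤ R := (le_max_right _ _).trans ((le_max_right _ _).trans hR)
  have hRp : 0 < R := by linarith
  intro Λ F T hDm
  obtain ⟨hfh, hlin, -⟩ := hAFHB d Γ K k B G hK hCl Λ F T hDm
  obtain ⟨hint, -, -⟩ := hSN R G hRc hCl
  set ε : ℝ := R ^ (-(1 / 4) : ℝ) with hε
  have hε0 : 0 ≤ ε := by positivity
  have hmem : ∀ φ : V d → ℂ, FH Λ F φ → MemLp (QF (Γ := Γ) G χ ch ζ R φ) 2 ((mY Γ d).restrict (DT d T)) := by
    intro φ hφ
    obtain ⟨hFP, -⟩ := hSB R G hRb hCl Λ F T hDm φ hφ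
    refine ⟨hFP.meas.aestronglyMeasurable, ?_⟩
    have h1 := (hIS R G hRa hCl Λ F T hDm φ hφ).1
    rw [eLpNorm_lt_top_iff_lintegral_rpow_enorm_lt_top (by norm_num) (by norm_num)]
    have h2 : ∫⁻ y in DT d T, ‖QF G χ ch ζ R φ y‖ₑ ^ (ENNReal.toReal 2) ∂mY Γ d = ∫⁻ y in DT d T, ‖QF G χ ch ζ R φ y‖ₑ ^ 2 ∂mY Γ d := by
      refine lintegral_congr fun y => ?_
      rw [ENNReal.toReal_ofNat]
      exact ENNReal.rpow_natCast _ 2
    rw [h2]
    exact lt_of_le_of_lt h1 ENNReal.ofReal_lt_top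
  -- linearity
  have hQ : ∀ (a b : ℂ) (φ u : V d → ℂ), FH Λ F φ → FH Λ F u → ∀ y : YS Γ d,
      QF G χ ch ζ R (fun z => a * φ z + b * u z) y = a * QF G χ ch ζ R φ y + b * QF G χ ch ζ R u y := by
    intro a b φ u hφ hu y
    have hi : ∀ φ : V d → ℂ, FH Λ F φ → Integrable (fun z => φ z * conj (Gp G χ ch ζ R y z)) (mv G) := by
      intro φ hφ
      obtain ⟨⟨c, hc⟩, -⟩ := hfh φ hφ
      have h1 : Integrable (fun z => conj (Gp G χ ch ζ R y z)) (mv G) := by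
        have := (hint y)
        exact (integrable_norm_iff (Complex.continuous_conj.comp_aestronglyMeasurable this.aestronglyMeasurable)).1 (by
          simpa using this.norm)
      exact h1.bdd_mul (c := c) hφ.cont.aestronglyMeasurable (Eventually.of_forall hc)
    unfold QF
    have e : (fun z => (a * φ z + b * u z) * conj (Gp G χ ch ζ R y z)) = fun z =>
        a * (φ z * conj (Gp G χ ch ζ R y z)) + b * (u z * conj (Gp G χ ch ζ R y z)) := by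
      funext z
      ring
    rw [e, integral_add ((hi φ hφ).const_mul a) ((hi u hu).const_mul b), integral_const_mul, integral_const_mul]
  -- the quadratic form
  have hq : ∀ φ : V d → ℂ, FH Λ F φ → |(∫ y in DT d T, ‖QF G χ ch ζ R φ y‖ ^ 2 ∂mY Γ d) - nn G F φ| ≤ ε * nn G F φ := by
    intro φ hφ
    obtain ⟨h1, h2⟩ := hIS R G hRa hCl Λ F T hDm φ hφ
    have hnn := (hfh φ hφ).2.2.2.2.1
    have h3 : ∫⁻ y in DT d T, ‖QF G χ ch ζ R φ y‖ₑ ^ 2 ∂mY Γ d = ENNReal.ofReal (∫ y in DT d T, ‖QF G χ ch ζ R φ y‖ ^ 2 ∂mY Γ d) := by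
      rw [ofReal_integral_eq_lintegral_ofReal]
      · refine lintegral_congr fun y => ?_
        rw [ENNReal.ofReal_pow (norm_nonneg _), ofReal_norm]
      · exact (hmem φ hφ).integrable_norm_pow (by norm_num)
      · exact Eventually.of_forall fun y => by positivity
    rw [h3] at h1 h2
    have hI0 : 0 ≤ ∫ y in DT d T, ‖QF G χ ch ζ R φ y‖ ^ 2 ∂mY Γ d := integral_nonneg fun y => by positivity
    have h4 := (ENNReal.ofReal_le_ofReal_iff (by positivity)).1 h1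
    have h5 : (1 - ε) * nn G F φ ≤ ∫ y in DT d T, ‖QF G χ ch ζ R φ y‖ ^ 2 ∂mY Γ d := (ENNReal.ofReal_le_ofReal_iff hI0).1 h2
    rw [abs_le]
    constructor <;> linarith
  refine ⟨hmem, fun φ u hφ hu => ⟨?_, ?_⟩⟩
  · have h1 := hmem φ hφ
    have h2 := hmem u hu
    have h3 : MemLp (fun y => conj (QF G χ ch ζ R u y)) 2 ((mY Γ d).restrict (DT d T)) := h2.star
    exact h1.integrable_mul h3
  · have hφ2 := (hfh φ hφ).2.2.1
    have hu2 := (hfh u hu).2.2.1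
    have h1 := APOL_abs ((hmem u hu).toLp _) ((hmem φ hφ).toLp _) (hu2.toLp _) (hφ2.toLp _) ε hε0 ?_
    · rw [APOL_inner (hmem φ hφ) (hmem u hu), APOL_inner hφ2 hu2] at h1
      have n : ∀ (φ : V d → ℂ) (hφ : MemLp φ 2 ((mv G).restrict F)), ‖hφ.toLp φ‖ = Real.sqrt (nn G F φ) := by
        intro φ hφ
        have h2 := APOL_norm hφ hφ 1 0
        rw [one_smul, zero_smul, add_zero] at h2
        have h3 : ∫ x in F, ‖(1 : ℂ) * φ x + 0 * φ x‖ ^ 2 ∂mv G = nn G F φ := by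
          unfold nn
          refine integral_congr_ae (Eventually.of_forall fun x => ?_)
          show ‖(1 : ℂ) * φ x + 0 * φ x‖ ^ 2 = ‖φ x‖ ^ 2
          rw [one_mul, zero_mul, add_zero]
        rw [h3] at h2
        rw [← h2, Real.sqrt_sq (norm_nonneg _)]
      rw [n u hu2, n φ hφ2] at h1
      refine h1.trans ?_
      have : 0 ≤ ε * (Real.sqrt (nn G F u) * Real.sqrt (nn G F φ)) := by positivity
      calc ε * (Real.sqrt (nn G F u) * Real.sqrt (nn G F φ)) ≤ 2 * (ε * (Real.sqrt (nn G F u) * Real.sqrt (nn G F φ))) := by linarith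
        _ = 2 * ε * (Real.sqrt (nn G F φ) * Real.sqrt (nn G F u)) := by ring
    · intro a b
      rw [APOL_norm (hmem u hu) (hmem φ hφ), APOL_norm hu2 hφ2]
      have h2 := hq _ (hlin a b u φ hu hφ)
      have e1 : ∫ y in DT d T, ‖QF G χ ch ζ R (fun z => a * u z + b * φ z) y‖ ^ 2 ∂mY Γ d =
          ∫ y in DT d T, ‖a * QF G χ ch ζ R u y + b * QF G χ ch ζ R φ y‖ ^ 2 ∂mY Γ d := by
        refine integral_congr_ae (Eventually.of_forall fun y => ?_)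
        show ‖QF G χ ch ζ R (fun z => a * u z + b * φ z) y‖ ^ 2 = _
        rw [hQ a b u φ hu hφ y]
      rw [e1] at h2
      exact h2

end

end Pool.Agent.VD
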