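import Pool.Agent.helper11.VD.Spec3e

/-!
# Row vd:WXD (MP_07c750_an): the second moment of one word (adaptation of `Pool/Agent/helper5/VN/WXN.lean`)
-/

set_option autoImplicit false

open scoped ContDiff Topology InnerProductSpace ENNReal ComplexConjugate
open MeasureTheory Filter Set

namespace Pool.Agent.VD

open Pool.Agent.RPQ (PN PJ UN upd IsOp nst)
open Pool.Agent.VQ (CH PS KZ perZ cmZ stZ wdZ InvS AdZ vz mZ wM qZ phZ rk)
open Pool.Agent.VN (aN)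
open Pool.Agent.VDE (UWLD FDX)

noncomputable section

variable {d : ℕ}

theorem WXD_qmono {Y : Type} [MeasurableSpace Y] (m : Measure Y) (M : Y → Y → ENNReal) (V V' : Y → ENNReal) (h : ∀ x, V x ≤ V' x) :
    ∀ (n : ℕ) (x : Y), qZ m M n V x ≤ qZ m M n V' x := by
  intro n
  induction n with
  | zero => exact h
  | succ n ih =>
    intro x
    exact lintegral_mono fun y => mul_le_mul_right (ih y) _

theorem WXD_nst {b L n : ℕ} (hL : 1 ≤ L) {l : List ℕ} (hl : l ∈ AdZ b L n) : l ≠ [] ∧ 1 ≤ nst l := by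
  obtain ⟨c, hc, -, rfl⟩ := hl
  have h1 : c ≠ [] := by
    intro h
    rw [h, List.length_nil] at hc
    omega
  obtain ⟨a, c', rfl⟩ := List.exists_cons_of_ne_nil h1
  refine ⟨by simp, ?_⟩
  unfold nst
  simp only [List.map_cons, List.sum_cons]
  omega

/-- the first numerical estimate -/
theorem WXD_num1 (d : ℕ) (R θ ζ M0 C : ℝ) (N n' L : ℕ) (hR : 1 ≤ R) (hRC : 2 * C ≤ R) (hζ : 0 ≤ ζ) (hNζ : N * ζ ≤ 1 / 4) (hn : 1 ≤ n') (hnN : n' ≤ N)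
    (hL : M0 + d + 2 ≤ θ * L) (hC : 0 ≤ C) :
    R ^ (1 / 8 : ℝ) * (R ^ (-(d : ℝ) + ζ)) ^ (n' - 1) * ((R ^ d) ^ n' * (R ^ (-θ)) ^ L * C) ≤ R ^ (-M0) / 2 := by
  have hR0 : 0 < R := by linarith
  obtain ⟨k, rfl⟩ : ∃ k, n' = k + 1 := ⟨n' - 1, by omega⟩
  rw [Nat.add_sub_cancel]
  have e1 : (R ^ (-(d : ℝ) + ζ)) ^ k = R ^ ((-(d : ℝ) + ζ) * k) := by rw [← Real.rpow_natCast, ← Real.rpow_mul hR0.le]
  have e2 : (R ^ d) ^ (k + 1) = R ^ ((d : ℝ) * (k + 1)) := by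
    rw [← pow_mul, ← Real.rpow_natCast]
    push_cast
    ring_nf
  have e3 : (R ^ (-θ)) ^ L = R ^ ((-θ) * L) := by rw [← Real.rpow_natCast, ← Real.rpow_mul hR0.le]
  rw [e1, e2, e3]
  have e4 : R ^ (1 / 8 : ℝ) * R ^ ((-(d : ℝ) + ζ) * k) * (R ^ ((d : ℝ) * (k + 1)) * R ^ ((-θ) * L) * C) =
      R ^ ((1 / 8 : ℝ) + (-(d : ℝ) + ζ) * k + ((d : ℝ) * (k + 1) + (-θ) * L)) * C := by
    rw [Real.rpow_add hR0, Real.rpow_add hR0, Real.rpow_add hR0]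
    ring
  rw [e4]
  have hk : (k : ℝ) * ζ ≤ 1 / 4 := by
    have h1 : (k : ℝ) ≤ N := by
      have : k ≤ N := by omega
      exact_mod_cast this
    nlinarith
  have h2 : R ^ ((1 / 8 : ℝ) + (-(d : ℝ) + ζ) * k + ((d : ℝ) * (k + 1) + (-θ) * L)) ≤ R ^ (-M0 + -1 : ℝ) := by
    apply Real.rpow_le_rpow_of_exponent_le hR
    nlinarith
  have h3 : R ^ (-M0 + -1 : ℝ) = R ^ (-M0) * R⁻¹ := by rw [Real.rpow_add hR0, Real.rpow_neg_one]
  have h4 : R⁻¹ * C ≤ 1 / 2 := by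
    rw [inv_mul_le_iff₀ hR0]
    linarith
  have h7 : 0 ≤ R ^ (-M0) := Real.rpow_nonneg hR0.le _
  calc R ^ ((1 / 8 : ℝ) + (-(d : ℝ) + ζ) * k + ((d : ℝ) * (k + 1) + (-θ) * L)) * C ≤ R ^ (-M0 + -1 : ℝ) * C :=
        mul_le_mul_of_nonneg_right h2 hC
    _ = R ^ (-M0) * (R⁻¹ * C) := by rw [h3]; ring
    _ ≤ R ^ (-M0) * (1 / 2) := mul_le_mul_of_nonneg_left h4 h7
    _ = R ^ (-M0) / 2 := by ring

/-- the second numerical estimate -/
theorem WXD_num2 (d : ℕ) (R M0 C : ℝ) (N : ℕ) (hR : 1 ≤ R) (hRC : 2 * C ≤ R) (hC : 0 ≤ C) :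
    R ^ (-((4 * d + 6) * N + M0 + 10)) * (R ^ ((2 * d + 3) * N)) ^ 2 * C ^ 2 ≤ R ^ (-M0) / 2 := by
  have hR0 : 0 < R := by linarith
  have e1 : (R ^ ((2 * d + 3) * N)) ^ 2 = R ^ ((4 * d + 6 : ℝ) * N) := by
    rw [← pow_mul, ← Real.rpow_natCast]
    push_cast
    ring_nf
  have e2 : R ^ (-((4 * d + 6) * N + M0 + 10)) * R ^ ((4 * d + 6 : ℝ) * N) = R ^ (-M0) * R ^ (-(10 : ℝ)) := by
    rw [← Real.rpow_add hR0, ← Real.rpow_add hR0]
    congr 1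
    ring
  rw [e1, e2]
  have h1 : R ^ (-(10 : ℝ)) ≤ R ^ (-2 : ℝ) := by
    apply Real.rpow_le_rpow_of_exponent_le hR
    norm_num
  have h2 : R ^ (-2 : ℝ) = (R ^ 2)⁻¹ := by
    rw [Real.rpow_neg hR0.le]
    congr 1
    exact Real.rpow_natCast R 2
  have h3 : R ^ (-(10 : ℝ)) * C ^ 2 ≤ 1 / 2 := by
    have h4 : R ^ (-(10 : ℝ)) * C ^ 2 ≤ (R ^ 2)⁻¹ * C ^ 2 := by
      rw [← h2]
      exact mul_le_mul_of_nonneg_right h1 (sq_nonneg _)
    have h5 : (R ^ 2)⁻¹ * C ^ 2 ≤ 1 / 2 := by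
      rw [inv_mul_le_iff₀ (by positivity)]
      nlinarith
    exact h4.trans h5
  have h6 : 0 ≤ R ^ (-M0) := Real.rpow_nonneg hR0.le _
  calc R ^ (-M0) * R ^ (-(10 : ℝ)) * C ^ 2 = R ^ (-M0) * (R ^ (-(10 : ℝ)) * C ^ 2) := by ring
    _ ≤ R ^ (-M0) * (1 / 2) := mul_le_mul_of_nonneg_left h3 h6
    _ = R ^ (-M0) / 2 := by ring

theorem WXD_ch {Γ : Type} [Group Γ] [MulAction Γ (V d)] {G : V d → V d →L[ℝ] V d} {Φ : ℝ → P d → P d} {r0 : ℝ} {χ0 : V d → ℝ} {ch : ℝ → ℝ} {A : Par}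
    {R θ ζ c0 M0 : ℝ} {N b nc J : ℕ} {χ : Fin J → V d → ℝ} {κ : ℝ} {S : Set (YS Γ d)}
    (hV : VHD Γ G Φ r0 χ0 ch A R θ ζ c0 M0 N b nc J χ κ S) (l : List ℕ) (w : ℕ → YS Γ d)
    (hw : wM (fun x y => ‖ub G Φ r0 χ0 ch A R x y‖ₑ) l w ≠ 0) : ChD G Φ r0 A R (nst l) w := by
  have h1 : ∀ j < nst l, ub G Φ r0 χ0 ch A R (w j) (w (j + 1)) ≠ 0 := by
    intro j hj h0
    apply hw
    unfold wM
    refine Finset.prod_eq_zero (Finset.mem_range.2 hj) ?_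
    show ‖ub G Φ r0 χ0 ch A R (w j) (w (j + 1))‖ₑ = 0
    rw [h0, enorm_zero]
  exact fun j hj => hV.rch _ _ (h1 j hj)

theorem WXD_proof (hWXA : WXA_stmt) (hPSY : PSY_stmt) (hSBY : SBY_stmt) (hKZD : KZD_stmt) (hMTD : MTD_stmt) (hVLD : VLD_stmt)
    (hLEN : LEN_stmt) (hCTD : CTD_stmt) (hKSZ : VQ.KSZ_stmt) : WXD_stmt := by
  intro d Γ _ _ K r0 k B N M0 hd hK hN1 hM0
  obtain ⟨C, hC1, hVL⟩ := hVLD d Γ K k B r0
  have hcnt : Countable Γ := hCTD d Γ K hK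
  obtain ⟨Ln, hL1, hL2, hL3, hL4⟩ := hLEN Γ hcnt
  refine ⟨3 + 2 * C, by linarith, ?_⟩
  intro G Φ χ0 ch A R θ ζ c0 b L n nc J χ κ S S' W' l hR hCls hFl hχ hVH hS'm hS'i hS'sub hW'm hW'i hb hL hl hlN hθ hθL
  have hR1 : 1 ≤ R := by linarith
  have hR0 : 0 < R := by linarith
  have hRC : 2 * C ≤ R := by linarith
  have hCR : C ≤ R := by linarith
  set W : Set (P d) := {p : P d | ‖p.1‖ ≤ r0 ∧ |Ep G p| ≤ 2 * R ^ (-(1 / 4) : ℝ)} with hWdef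
  have hvol : volume W ≤ ENNReal.ofReal C := hVL G R hR1 hCls
  obtain ⟨-, -, -, hmeas, -, -, hGWi, -, hWm⟩ := hMTD d Γ G Φ ∅ (fun _ => 0) r0 R 0 0 2 hCls.met hFl continuous_const
  obtain ⟨hP, -, -, -, -, hmD⟩ := hPSY d Γ W Ln hcnt hWm (lt_of_le_of_lt hvol ENNReal.ofReal_lt_top) hL1 hL2 hL3 hL4
  have hmW : mW Γ G r0 R = mWW Γ W := rfl
  obtain ⟨hlne, hn1⟩ := WXD_nst hL hl
  have hζ := hVH.loss.1
  have hNζ := hVH.loss.2
  have hc0 : 0 ≤ c0 := le_trans (by positivity) hVH.c0.1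
  let M : YS Γ d → YS Γ d → ENNReal := fun x y => ‖ub G Φ r0 χ0 ch A R x y‖ₑ
  have hMm : Measurable (Function.uncurry M) := hVH.ker.meas.enorm
  have huM : (fun x y : YS Γ d => ‖stZ W' (ub G Φ r0 χ0 ch A R) x y‖ₑ) = M := by
    funext x y
    have h1 : ‖stZ W' (ub G Φ r0 χ0 ch A R) x y‖ = ‖ub G Φ r0 χ0 ch A R x y‖ := by
      unfold stZ
      rw [norm_mul, Complex.norm_exp_ofReal_mul_I, one_mul]
    show ‖stZ W' (ub G Φ r0 χ0 ch A R) x y‖ₑ = ‖ub G Φ r0 χ0 ch A R x y‖ₑ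
    rw [← ofReal_norm, ← ofReal_norm, h1]
  have hu0 : ∀ x y : YS Γ d, stZ W' (ub G Φ r0 χ0 ch A R) x y ≠ 0 → ub G Φ r0 χ0 ch A R x y ≠ 0 := by
    intro x y h h0
    apply h
    unfold stZ
    rw [h0, mul_zero]
  have hu : KZ Γ (dYS Ln) (stZ W' (ub G Φ r0 χ0 ch A R)) :=
    (hKSZ Γ _ (mWW Γ W) (DT d {1}) (dYS Ln) hP).1 W' _ hW'm hW'i (hKZD d Γ Ln _ hVH.ker)
  let th : Fin J → YS Γ d → ℝ := fun a y => thP Φ (χ a) κ (A.tu R) y.2
  have hth : ∀ a, Measurable (th a) ∧ ∀ (γ : Γ) (y : YS Γ d), th a (γ • y) = th a y := by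
    intro a
    have h1 := (hMTD d Γ G Φ ∅ (χ a) r0 κ (A.tu R) 0 2 hCls.met hFl (hχ a)).1
    exact ⟨hmeas _ h1, fun γ y => rfl⟩
  obtain ⟨S0, hS0c, hS0⟩ := hVH.rng
  have hN0 : (0 : ℝ) < N := by exact_mod_cast hN1
  have hRq : 0 < R ^ (-(1 / 4) : ℝ) := Real.rpow_pos_of_pos hR0 _
  -- the crude bound
  have hSx : ∀ x y : YS Γ d, ∑' γ : Γ, ∫⁻ v, wM M l (vz x (γ • y) v) ∂mZ (mWW Γ W) (nst l - 1) ≤ ENNReal.ofReal (R ^ ((2 * d + 3) * N)) := by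
    intro x y
    have h1 := hSBY d Γ W M S0 (ENNReal.ofReal (R ^ (2 * d))) l hcnt hWm hMm ?_ ?_ hlne x y
    · refine h1.trans ?_
      have a1 : (S0.card : ENNReal) ≤ ENNReal.ofReal R := by
        rw [← ENNReal.ofReal_natCast]
        exact ENNReal.ofReal_le_ofReal hS0c
      have a2 : volume W ≤ ENNReal.ofReal R := hvol.trans (ENNReal.ofReal_le_ofReal hCR)
      calc (S0.card : ENNReal) ^ nst l * ENNReal.ofReal (R ^ (2 * d)) ^ nst l * ((S0.card : ENNReal) * volume W) ^ (nst l - 1)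
          ≤ ENNReal.ofReal R ^ nst l * ENNReal.ofReal (R ^ (2 * d)) ^ nst l * (ENNReal.ofReal R * ENNReal.ofReal R) ^ (nst l - 1) :=
            mul_le_mul' (mul_le_mul' (pow_le_pow_left' a1 _) le_rfl) (pow_le_pow_left' (mul_le_mul' a1 a2) _)
        _ = ENNReal.ofReal (R ^ nst l * (R ^ (2 * d)) ^ nst l * (R * R) ^ (nst l - 1)) := by
            rw [← ENNReal.ofReal_mul hR0.le, ← ENNReal.ofReal_pow hR0.le, ← ENNReal.ofReal_pow (by positivity), ← ENNReal.ofReal_pow (by positivity),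
              ← ENNReal.ofReal_mul (by positivity), ← ENNReal.ofReal_mul (by positivity)]
        _ ≤ ENNReal.ofReal (R ^ ((2 * d + 3) * N)) := by
            apply ENNReal.ofReal_le_ofReal
            have e1 : R ^ nst l * (R ^ (2 * d)) ^ nst l * (R * R) ^ (nst l - 1) = R ^ (nst l + 2 * d * nst l + 2 * (nst l - 1)) := by
              rw [← pow_two, ← pow_mul, ← pow_mul, ← pow_add, ← pow_add]
            rw [e1]
            refine pow_le_pow_right₀ hR1 ?_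
            have h5 : (2 * d + 3) * nst l ≤ (2 * d + 3) * N := Nat.mul_le_mul_left _ hlN
            have h6 : nst l + 2 * d * nst l + 2 * (nst l - 1) ≤ (2 * d + 3) * nst l := by
              have : (2 * d + 3) * nst l = 2 * d * nst l + 3 * nst l := by ring
              omega
            exact h6.trans h5
    · intro y y' hne
      refine hS0 y y' fun h0 => hne ?_
      show ‖ub G Φ r0 χ0 ch A R y y'‖ₑ = 0
      rw [h0, enorm_zero]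
    · intro y y'
      show ‖ub G Φ r0 χ0 ch A R y y'‖ₑ ≤ _
      rw [← ofReal_norm]
      exact ENNReal.ofReal_le_ofReal (hVH.bd _ _)
  -- the undetected chains
  have hVX0 : ∀ (x y : YS Γ d) (v : Fin (nst l - 1) → YS Γ d), vz x y v 0 = x := fun x y v => rfl
  have hund : ∀ (x y : YS Γ d) (v : Fin (nst l - 1) → YS Γ d), wM M l (vz x y v) ≠ 0 →
      ∑' γ : Γ, mZ (mWW Γ W) (nst l - 1) {v' | wM M l (vz x (γ • y) v') ≠ 0 ∧ {a : Fin J | 1 ≤ |phZ th l (vz x y v) a - phZ th l (vz x (γ • y) v') a|}.ncard < nc} ≤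
        ENNReal.ofReal (R ^ (1 / 8 : ℝ) * (R ^ (-(d : ℝ) + ζ)) ^ (nst l - 1)) := by
    intro x y v hv
    refine le_trans (ENNReal.tsum_le_tsum fun γ => measure_mono ?_) (hVH.und (nst l) hn1 hlN x y (vz x y v) (hVX0 x y v) (WXD_ch hVH l _ hv))
    rintro v' ⟨h2, h3⟩
    exact ⟨WXD_ch hVH l _ h2, h3⟩
  have hmain := hWXA Γ (YS Γ d) (mWW Γ W) (DT d {1}) (dYS Ln) hP J nc b N L n th (stZ W' (ub G Φ r0 χ0 ch A R)) S'
    (fun j => GW Γ G r0 (1 + j / (4 * N)) R) l (ENNReal.ofReal c0) (ENNReal.ofReal (R ^ (-θ)))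
    (ENNReal.ofReal (R ^ (1 / 8 : ℝ) * (R ^ (-(d : ℝ) + ζ)) ^ (nst l - 1))) (ENNReal.ofReal (R ^ ((2 * d + 3) * N)))
    hth hu hS'm hS'i ?_ ?_ ?_ ?_ hb hL hl hlN ENNReal.ofReal_ne_top ?_ ?_
  rotate_left
  · intro x hx
    have h1 := (hS'sub x hx).2
    show ‖x.2.1‖ ≤ r0 ∧ |Ep G x.2| ≤ (1 + ((0 : ℕ) : ℝ) / (4 * N)) * R ^ (-(1 / 4) : ℝ)
    rw [Nat.cast_zero, zero_div, add_zero]
    exact h1
  · intro j x y hx hne
    obtain ⟨-, h2, h3⟩ := hVH.jmp x y (hVH.rch x y (hu0 x y hne))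
    have hx' : |Ep G x.2| ≤ (1 + (j : ℝ) / (4 * N)) * R ^ (-(1 / 4) : ℝ) := hx.2
    show ‖y.2.1‖ ≤ r0 ∧ |Ep G y.2| ≤ (1 + ((j + 1 : ℕ) : ℝ) / (4 * N)) * R ^ (-(1 / 4) : ℝ)
    refine ⟨h2.1, ?_⟩
    have h4 : |Ep G y.2| ≤ |Ep G x.2| + |Ep G x.2 - Ep G y.2| := by
      have h5 : Ep G y.2 = Ep G x.2 - (Ep G x.2 - Ep G y.2) := by ring
      calc |Ep G y.2| = |Ep G x.2 - (Ep G x.2 - Ep G y.2)| := by rw [← h5]
        _ ≤ |Ep G x.2| + |Ep G x.2 - Ep G y.2| := abs_sub _ _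
    have h6 : (1 + ((j + 1 : ℕ) : ℝ) / (4 * N)) * R ^ (-(1 / 4) : ℝ) = (1 + (j : ℝ) / (4 * N)) * R ^ (-(1 / 4) : ℝ) + R ^ (-(1 / 4) : ℝ) / (4 * N) := by
      push_cast
      field_simp
      ring
    rw [h6]
    linarith
  · intro x
    have h1 : ∀ y, ‖stZ W' (ub G Φ r0 χ0 ch A R) x y‖ₑ = ‖ub G Φ r0 χ0 ch A R x y‖ₑ := fun y => congrFun (congrFun huM x) y
    simp only [h1]
    exact hVH.row x
  · intro j hj x hx
    rw [huM]
    have hx' : |Ep G x.2| ≤ (1 + (j : ℝ) / (4 * N)) * R ^ (-(1 / 4) : ℝ) := hx.2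
    have h1 : x ∈ GW Γ G r0 (5 / 4) R := by
      have h4 : (j : ℝ) / (4 * N) ≤ 1 / 4 := by
        have h5 : (j : ℝ) ≤ N := by exact_mod_cast hj
        rw [div_le_iff₀ (by positivity)]
        linarith
      refine ⟨hx.1, hx'.trans ?_⟩
      nlinarith
    have h2 := hVH.ld x h1
    refine (WXD_qmono (mW Γ G r0 R) M _ _ ?_ b x).trans (h2.trans ?_)
    · intro y
      exact Set.indicator_le_indicator_of_subset (fun p hp => (hS'sub p hp).1) (fun _ => bot_le) y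
    · rw [← ENNReal.ofReal_pow hc0, ← ENNReal.ofReal_mul (pow_nonneg hc0 _), mul_comm]
      apply ENNReal.ofReal_le_ofReal
      exact mul_le_mul_of_nonneg_right (pow_le_pow_left₀ (by positivity) hVH.c0.1 b) (Real.rpow_nonneg hR0.le _)
  · rw [huM]
    exact hSx
  · rw [huM]
    exact hund
  refine hmain.trans ?_
  have hmD' : mWW Γ W (DT d ({1} : Set Γ)) ≤ ENNReal.ofReal C := by
    rw [hmD]
    exact hvol
  have hT1 : ENNReal.ofReal (R ^ (1 / 8 : ℝ) * (R ^ (-(d : ℝ) + ζ)) ^ (nst l - 1)) *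
      (ENNReal.ofReal c0 ^ nst l * ENNReal.ofReal (R ^ (-θ)) ^ L * mWW Γ W (DT d ({1} : Set Γ))) ≤ ENNReal.ofReal (R ^ (-M0) / 2) := by
    have h1 : ENNReal.ofReal c0 ^ nst l * ENNReal.ofReal (R ^ (-θ)) ^ L * mWW Γ W (DT d ({1} : Set Γ)) ≤
        ENNReal.ofReal ((R ^ d) ^ nst l * (R ^ (-θ)) ^ L * C) := by
      rw [ENNReal.ofReal_mul (by positivity), ENNReal.ofReal_mul (by positivity), ENNReal.ofReal_pow (p := R ^ d) (by positivity),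
        ENNReal.ofReal_pow (p := R ^ (-θ)) (by positivity)]
      refine mul_le_mul' (mul_le_mul' ?_ le_rfl) hmD'
      exact pow_le_pow_left' (ENNReal.ofReal_le_ofReal hVH.c0.2) _
    refine (mul_le_mul_right h1 _).trans ?_
    rw [← ENNReal.ofReal_mul (by positivity)]
    exact ENNReal.ofReal_le_ofReal (WXD_num1 d R θ ζ M0 C N (nst l) L hR1 hRC hζ hNζ hn1 hlN hθL (by linarith))
  have hT2 : ENNReal.ofReal ((9 / 10) ^ nc) * ENNReal.ofReal (R ^ ((2 * d + 3) * N)) ^ 2 * mWW Γ W (DT d ({1} : Set Γ)) ^ 2 ≤ ENNReal.ofReal (R ^ (-M0) / 2) := by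
    have h1 : ENNReal.ofReal ((9 / 10) ^ nc) * ENNReal.ofReal (R ^ ((2 * d + 3) * N)) ^ 2 * mWW Γ W (DT d ({1} : Set Γ)) ^ 2 ≤
        ENNReal.ofReal (R ^ (-((4 * d + 6) * N + M0 + 10)) * (R ^ ((2 * d + 3) * N)) ^ 2 * C ^ 2) := by
      rw [ENNReal.ofReal_mul (by positivity), ENNReal.ofReal_mul (by positivity), ENNReal.ofReal_pow (p := R ^ ((2 * d + 3) * N)) (by positivity),
        ENNReal.ofReal_pow (p := C) (by linarith)]
      refine mul_le_mul' (mul_le_mul' (ENNReal.ofReal_le_ofReal hVH.nc1) le_rfl) ?_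
      exact pow_le_pow_left' hmD' _
    exact h1.trans (ENNReal.ofReal_le_ofReal (WXD_num2 d R M0 C N hR1 hRC (by linarith)))
  refine (add_le_add hT1 hT2).trans (le_of_eq ?_)
  rw [← ENNReal.ofReal_add (by positivity) (by positivity), add_halves]

end

end Pool.Agent.VD
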